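import Pool.Agent.Q171.RW.Defs

/-!
The conserved quantity of rotor walk attached to a summable function with integral Laplacian.
-/

namespace Pool.Agent.Q171.RW

open Filter Topology MeasureTheory

section Cocycle

variable {D : Type*} [Fintype D] [DecidableEq D]

/-- a cyclic cocycle -/
lemma exists_cocycle [Nonempty D] (τ : Equiv.Perm D) (hτ : ∀ δ δ' : D, ∃ n : ℕ, (τ ^ n) δ = δ')
    (c : D → ℝ) (hc : ∃ n : ℤ, ∑ δ, c δ = n) :
    ∃ w : D → ℝ, (∀ δ, ∃ n : ℤ, w (τ δ) - w δ = c (τ δ) + n) ∧ ∀ δ, |w δ| ≤ ∑ δ', |c δ'| := by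
  classical
  obtain ⟨δ0⟩ := ‹Nonempty D›
  have hcyc : τ.IsCycleOn ((Finset.univ : Finset D) : Set D) := by
    constructor
    · rw [Finset.coe_univ]
      exact τ.bijective.bijOn_univ
    · intro x _ y _
      obtain ⟨n, hn⟩ := hτ x y
      exact ⟨n, by simpa using hn⟩
  set K := (Finset.univ : Finset D).card with hK
  have hKpos : 0 < K := Finset.card_pos.mpr ⟨δ0, Finset.mem_univ _⟩
  have hmod : ∀ m n : ℕ, (τ ^ m) δ0 = (τ ^ n) δ0 ↔ m ≡ n [MOD K] := fun m n =>
    hcyc.pow_apply_eq_pow_apply (by simp)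
  have hex : ∀ δ, ∃ n < K, (τ ^ n) δ0 = δ := fun δ =>
    hcyc.exists_pow_eq (by simp) (by simp)
  choose j hj hjδ using hex
  have hsum : ∀ g : D → ℝ, ∑ i ∈ Finset.range K, g ((τ ^ (i + 1)) δ0) = ∑ δ, g δ := by
    intro g
    have hinj : Set.InjOn (fun i => (τ ^ (i + 1)) δ0) (Finset.range K : Set ℕ) := by
      intro a ha b hb hab
      have h1 := (hmod (a + 1) (b + 1)).mp hab
      have h2 : a ≡ b [MOD K] := Nat.ModEq.add_right_cancel' 1 h1
      exact Nat.ModEq.eq_of_lt_of_lt h2 (by simpa using ha) (by simpa using hb)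
    rw [← Finset.sum_image (f := g) hinj]
    apply Finset.sum_congr _ fun _ _ => rfl
    rw [← Finset.card_eq_iff_eq_univ, Finset.card_image_of_injOn hinj, Finset.card_range, hK,
      Finset.card_univ]
  refine ⟨fun δ => ∑ i ∈ Finset.range (j δ), c ((τ ^ (i + 1)) δ0), ?_, ?_⟩
  · intro δ
    have h1 : (τ ^ (j δ + 1)) δ0 = τ δ := by
      rw [pow_succ', Equiv.Perm.mul_apply, hjδ]
    have h2 : j (τ δ) ≡ j δ + 1 [MOD K] := by
      rw [← hmod, hjδ, h1]
    rcases Nat.lt_or_ge (j δ + 1) K with h3 | h3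
    · have h4 := Nat.ModEq.eq_of_lt_of_lt h2 (hj _) h3
      refine ⟨0, ?_⟩
      simp only [h4, Finset.sum_range_succ, h1]
      simp
    · have h5 : j δ + 1 = K := by
        have := hj δ
        omega
      have h6 : j (τ δ) = 0 := by
        have : j (τ δ) ≡ 0 [MOD K] := by
          refine h2.trans ?_
          rw [h5]
          exact (Nat.modEq_zero_iff_dvd.mpr dvd_rfl)
        exact Nat.ModEq.eq_of_lt_of_lt this (hj _) hKpos
      obtain ⟨n, hn⟩ := hc
      refine ⟨-n, ?_⟩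
      have h7 := hsum c
      rw [← h5, Finset.sum_range_succ, hn, h1] at h7
      have h8 : ∑ i ∈ Finset.range (j (τ δ)), c ((τ ^ (i + 1)) δ0) = 0 := by
        rw [h6, Finset.range_zero, Finset.sum_empty]
      change ∑ i ∈ Finset.range (j (τ δ)), c ((τ ^ (i + 1)) δ0)
        - ∑ i ∈ Finset.range (j δ), c ((τ ^ (i + 1)) δ0) = c (τ δ) + ((-n : ℤ) : ℝ)
      rw [h8, Int.cast_neg]
      linarith
  · intro δ
    refine (Finset.abs_sum_le_sum_abs _ _).trans ?_
    rw [← hsum (fun δ => |c δ|)]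
    exact Finset.sum_le_sum_of_subset_of_nonneg
      (Finset.range_subset_range.mpr (hj δ).le) (fun _ _ _ => abs_nonneg _)

end Cocycle

variable {d : ℕ}

/-- Existence of rotor weights. -/
theorem exists_weights (τ : V d → Equiv.Perm (Dr d)) (hτ : SingleOrbit τ) (h : V d → ℝ)
    (hs : Summable fun x => |h x|)
    (hlap : ∀ x, ∃ n : ℤ, 2 * (d : ℝ) * h x - ∑ δ : Dr d, h (x + vec δ) = n)
    (hnon : ∃ (x : V d) (δ : Dr d), ∀ n : ℤ, h x - h (x + vec δ) ≠ n) :
    ∃ (w : V d → Dr d → ℝ) (b : V d → ℝ), Summable b ∧ (∀ x δ, |w x δ| ≤ b x) ∧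
      (∀ x δ, ∃ n : ℤ, w x (τ x δ) - w x δ = h x - h (x + vec (τ x δ)) + n) ∧
      ∃ (x : V d) (δ δ' : Dr d), ∀ n : ℤ, w x δ - w x δ' ≠ n := by
  obtain ⟨x0, δ0, hx0⟩ := hnon
  have : Nonempty (Dr d) := ⟨δ0⟩
  have hex : ∀ x, ∃ w : Dr d → ℝ,
      (∀ δ, ∃ n : ℤ, w (τ x δ) - w δ = (h x - h (x + vec (τ x δ))) + n) ∧
      ∀ δ, |w δ| ≤ ∑ δ', |h x - h (x + vec δ')| := by
    intro x
    apply exists_cocycle (τ x) (hτ x) (fun δ => h x - h (x + vec δ))
    obtain ⟨n, hn⟩ := hlap x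
    refine ⟨n, ?_⟩
    rw [← hn, Finset.sum_sub_distrib, Finset.sum_const, Finset.card_univ, Fintype.card_prod,
      Fintype.card_fin, Fintype.card_bool, nsmul_eq_mul]
    push_cast
    ring
  choose w hw1 hw2 using hex
  refine ⟨w, fun x => ∑ δ', |h x - h (x + vec δ')|, ?_, hw2, hw1, ?_⟩
  · apply summable_sum
    intro δ _
    have h1 : Summable fun x => |h x| + |h (x + vec δ)| :=
      hs.add (hs.comp_injective (Equiv.addRight (vec δ)).injective)
    exact Summable.of_nonneg_of_le (fun x => abs_nonneg _) (fun x => abs_sub _ _) h1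
  · refine ⟨x0, δ0, (τ x0).symm δ0, fun n hn => ?_⟩
    obtain ⟨m, hm⟩ := hw1 x0 ((τ x0).symm δ0)
    rw [Equiv.apply_symm_apply] at hm
    apply hx0 (n - m)
    push_cast
    linarith

/-- total weight of a configuration -/
noncomputable def SS (w : V d → Dr d → ℝ) (ρ : Cfg d) : ℝ := ∑' x, w x (ρ x)

lemma SS_summable {w : V d → Dr d → ℝ} {b : V d → ℝ} (hb : Summable b)
    (hwb : ∀ x δ, |w x δ| ≤ b x) (ρ : Cfg d) : Summable fun x => w x (ρ x) :=
  Summable.of_norm_bounded hb fun x => hwb x _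

lemma SS_measurable (w : V d → Dr d → ℝ) : Measurable (SS w) := by
  apply Measurable.tsum
  intro x
  exact (measurable_of_finite (w x)).comp (measurable_pi_apply x)

lemma SS_update {w : V d → Dr d → ℝ} {b : V d → ℝ} (hb : Summable b)
    (hwb : ∀ x δ, |w x δ| ≤ b x) (ρ : Cfg d) (x : V d) (δ : Dr d) :
    SS w (Function.update ρ x δ) = SS w ρ + (w x δ - w x (ρ x)) := by
  have h1 := ((SS_summable hb hwb ρ).hasSum).update x (w x δ)
  have h2 : (fun y => w y (Function.update ρ x δ y))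
      = Function.update (fun y => w y (ρ y)) x (w x δ) := by
    ext y
    by_cases hy : y = x
    · subst hy
      simp
    · simp [hy]
  unfold SS
  rw [h2, h1.tsum_eq]
  ring

lemma walk_succ (τ : V d → Equiv.Perm (Dr d)) (a : V d) (ρ : Cfg d) (t : ℕ) :
    walk τ a ρ (t + 1) = step τ (walk τ a ρ t) := by
  simp only [walk, Function.iterate_succ_apply']

lemma conserve {τ : V d → Equiv.Perm (Dr d)} {h : V d → ℝ}
    {w : V d → Dr d → ℝ} {b : V d → ℝ} (hb : Summable b)
    (hwb : ∀ x δ, |w x δ| ≤ b x)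
    (hw : ∀ x δ, ∃ n : ℤ, w x (τ x δ) - w x δ = h x - h (x + vec (τ x δ)) + n)
    (a : V d) (ρ : Cfg d) (t : ℕ) :
    ∃ n : ℤ, h (walk τ a ρ t).1 + SS w (walk τ a ρ t).2 - (h a + SS w ρ) = n := by
  induction t with
  | zero => exact ⟨0, by simp [walk]⟩
  | succ t ih =>
    obtain ⟨n, hn⟩ := ih
    rw [walk_succ]
    set s := walk τ a ρ t with hs
    obtain ⟨m, hm⟩ := hw s.1 (s.2 s.1)
    refine ⟨n + m, ?_⟩
    simp only [step]
    rw [SS_update hb hwb]
    push_cast
    linarith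

lemma transient_tendsto {τ : V d → Equiv.Perm (Dr d)} {a : V d} {ρ : Cfg d}
    (htr : Transient τ a ρ) : Tendsto (fun t => (walk τ a ρ t).1) atTop cofinite := by
  rw [← Nat.cofinite_eq_atTop]
  exact Tendsto.cofinite_of_finite_preimage_singleton fun x => (htr x).to_subtype

lemma eventually_const {τ : V d → Equiv.Perm (Dr d)} {a : V d} {ρ : Cfg d}
    (htr : Transient τ a ρ) (x : V d) :
    ∀ᶠ t in atTop, (walk τ a ρ t).2 x = final τ a ρ x := by
  have hex : ∃ δ : Dr d, ∀ᶠ t in atTop, (walk τ a ρ t).2 x = δ := by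
    have h1 : ∀ᶠ t in atTop, (walk τ a ρ t).1 ≠ x := by
      rw [← Nat.cofinite_eq_atTop]
      exact (htr x).eventually_cofinite_notMem
    obtain ⟨T, hT⟩ := eventually_atTop.mp h1
    refine ⟨(walk τ a ρ T).2 x, eventually_atTop.mpr ⟨T, ?_⟩⟩
    intro t ht
    induction t, ht using Nat.le_induction with
    | base => rfl
    | succ t ht ih =>
      rw [walk_succ]
      simp only [step]
      rw [Function.update_of_ne (Ne.symm (hT t ht))]
      exact ih
  unfold final
  rw [dif_pos hex]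
  exact hex.choose_spec

/-- `S mod 1` is invariant under `ρ ↦ σ(ρ)` if the potential vanishes at the start. -/
theorem SS_invariant {τ : V d → Equiv.Perm (Dr d)} {h : V d → ℝ}
    (hs : Summable fun x => |h x|)
    {w : V d → Dr d → ℝ} {b : V d → ℝ} (hb : Summable b)
    (hwb : ∀ x δ, |w x δ| ≤ b x)
    (hw : ∀ x δ, ∃ n : ℤ, w x (τ x δ) - w x δ = h x - h (x + vec (τ x δ)) + n)
    {a : V d} (ha : h a = 0) {ρ : Cfg d} (htr : Transient τ a ρ) :
    ∃ n : ℤ, SS w (final τ a ρ) - SS w ρ = n := by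
  have h1 : Tendsto (fun t => h (walk τ a ρ t).1) atTop (𝓝 0) :=
    (hs.of_abs.tendsto_cofinite_zero).comp (transient_tendsto htr)
  have h2 : Tendsto (fun t => SS w (walk τ a ρ t).2) atTop (𝓝 (SS w (final τ a ρ))) := by
    refine tendsto_tsum_of_dominated_convergence hb (fun x => ?_)
      (Eventually.of_forall fun t x => hwb x _)
    exact tendsto_const_nhds.congr' ((eventually_const htr x).mono fun t ht => by
      simp only [ht])
  have h3 := (h1.add h2).sub (tendsto_const_nhds (x := h a + SS w ρ))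
  rw [ha, zero_add, zero_add] at h3
  have hcl : IsClosed (Set.range ((↑) : ℤ → ℝ)) := Int.isClosedEmbedding_coe_real.isClosed_range
  have := hcl.mem_of_tendsto h3 (Eventually.of_forall fun t => by
    obtain ⟨n, hn⟩ := conserve hb hwb hw a ρ t
    rw [ha, zero_add] at hn
    exact ⟨n, hn.symm⟩)
  obtain ⟨n, hn⟩ := this
  exact ⟨n, hn.symm⟩

end Pool.Agent.Q171.RW
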