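import Pool.Agent.Q171.RW.Ring

/-!
Under `OWUSF` some leaf pattern has positive probability, whatever the rotor at the leaf.
-/

namespace Pool.Agent.Q171.RW

open Filter Topology MeasureTheory

variable {d : ℕ}

/-- the edges of a pattern on `T` -/
def edges (T : Finset (V d)) (q : T → Dr d) : Finset (V d × Dr d) :=
  T.attach.image (fun y => (y.1, q y))

lemma mem_edges {T : Finset (V d)} {q : T → Dr d} {e : V d × Dr d} :
    e ∈ edges T q ↔ ∃ y : T, (y.1, q y) = e := by
  simp [edges]

lemma forall_edges {T : Finset (V d)} {q : T → Dr d} {p : V d × Dr d → Prop} :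
    (∀ e ∈ edges T q, p e) ↔ ∀ y : T, p (y.1, q y) := by
  constructor
  · intro h y
    exact h _ (mem_edges.mpr ⟨y, rfl⟩)
  · intro h e he
    obtain ⟨y, rfl⟩ := mem_edges.mp he
    exact h y

/-- forests containing `B` -/
abbrev Fo (W : Finset (V d)) (B : Finset (V d × Dr d)) : Type :=
  {f : W → Dr d // Acyclic W f ∧ ∀ e ∈ B, ∃ h : e.1 ∈ W, f ⟨e.1, h⟩ = e.2}

instance (W : Finset (V d)) (B : Finset (V d × Dr d)) : Finite (Fo W B) := by
  infer_instance

lemma forests_eq (W : Finset (V d)) (B : Finset (V d × Dr d)) :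
    forests W B = Nat.card (Fo W B) := rfl

/-- leaf patterns -/
abbrev LQ (x : V d) (T : Finset (V d)) : Type := {q : T → Dr d // ∀ y : T, y.1 + vec (q y) ≠ x}

instance (x : V d) (T : Finset (V d)) : Finite (LQ x T) := by
  infer_instance

noncomputable instance (x : V d) (T : Finset (V d)) : Fintype (LQ x T) := Fintype.ofFinite _

/-- counting form of the surgery -/
lemma count_leaf (hd : 2 ≤ d) {x : V d} {T W : Finset (V d)} (hTW : T ⊆ W) (hxT : x ∈ T)
    (hcT : cube x ⊆ T) :
    forests W ∅ ≤ ∑ q : LQ x T, forests W (edges T q.1) * Nat.card (cube x → Dr d) := by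
  classical
  have hsur : ∀ f : Fo W ∅, ∃ f' : W → Dr d, Acyclic W f' ∧ (∀ v ∈ W, nxt f' v ≠ x) ∧
      ∀ v : W, (v : V d) ∉ cube x → f' v = f.1 v := fun f =>
    surgery (cube_conn hd x) (hcT.trans hTW) (hTW hxT) (cube_not x) (cube_nbr x) f.2.1
  choose F hF1 hF2 hF3 using hsur
  let Q : Fo W ∅ → LQ x T := fun f => ⟨fun y => F f ⟨y.1, hTW y.2⟩, fun y => by
    have := hF2 f y.1 (hTW y.2)
    rwa [nxt_mem _ (hTW y.2)] at this⟩
  let Φ : Fo W ∅ → Σ q : LQ x T, Fo W (edges T q.1) × (cube x → Dr d) := fun f =>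
    ⟨Q f, ⟨⟨F f, hF1 f, by
      rw [forall_edges]
      intro y
      exact ⟨hTW y.2, rfl⟩⟩, fun y => f.1 ⟨y.1, hTW (hcT y.2)⟩⟩⟩
  let pr : (Σ q : LQ x T, Fo W (edges T q.1) × (cube x → Dr d)) → (W → Dr d) × (cube x → Dr d) :=
    fun s => (s.2.1.1, s.2.2)
  have hinj : Function.Injective Φ := by
    intro f g hfg
    have h1 : pr (Φ f) = pr (Φ g) := congrArg pr hfg
    have h2 : F f = F g := congrArg Prod.fst h1
    have h3 : (fun y : cube x => f.1 ⟨y.1, hTW (hcT y.2)⟩)
        = fun y : cube x => g.1 ⟨y.1, hTW (hcT y.2)⟩ := congrArg Prod.snd h1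
    apply Subtype.ext
    ext1 v
    by_cases hv : (v : V d) ∈ cube x
    · exact congrFun h3 ⟨v.1, hv⟩
    · rw [← hF3 f v hv, ← hF3 g v hv, h2]
  have hcard := Nat.card_le_card_of_injective Φ hinj
  rw [Nat.card_sigma] at hcard
  simp only [Nat.card_prod] at hcard
  exact hcard

/-- changing the rotor at the leaf does not change the number of forests -/
lemma count_swap {x : V d} {T W : Finset (V d)} (hTW : T ⊆ W) (hxT : x ∈ T)
    (hcT : cube x ⊆ T) (q : LQ x T) (δ : Dr d) :
    forests W (edges T q.1) ≤ forests W (edges T (Function.update q.1 ⟨x, hxT⟩ δ)) := by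
  classical
  let Φ : Fo W (edges T q.1) → Fo W (edges T (Function.update q.1 ⟨x, hxT⟩ δ)) := fun f =>
    ⟨Function.update f.1 ⟨x, hTW hxT⟩ δ, by
      have hq : ∀ y : T, f.1 ⟨y.1, hTW y.2⟩ = q.1 y := by
        intro y
        obtain ⟨h, h'⟩ := forall_edges.mp f.2.2 y
        exact h'
      refine ⟨swap_acyclic f.2.1 ⟨x, hTW hxT⟩ ?_ δ, ?_⟩
      · intro v hvW
        rw [nxt_mem _ hvW]
        by_cases hvT : v ∈ T
        · have := hq ⟨v, hvT⟩
          simp only at this
          rw [this]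
          exact q.2 ⟨v, hvT⟩
        · intro h
          apply hvT
          apply hcT
          have h' : v + vec (f.1 ⟨v, hvW⟩) = x := h
          have : v = x + vec (opp (f.1 ⟨v, hvW⟩)) := by
            rw [vec_opp]
            exact eq_add_neg_of_add_eq h'
          rw [this]
          exact cube_nbr x _
      · rw [forall_edges]
        intro y
        refine ⟨hTW y.2, ?_⟩
        by_cases hy : y = ⟨x, hxT⟩
        · subst hy
          simp
        · rw [Function.update_of_ne hy, Function.update_of_ne]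
          · exact hq y
          · intro h
            apply hy
            apply Subtype.ext
            exact congrArg (Subtype.val : W → V d) h⟩
  apply Nat.card_le_card_of_injective Φ
  intro f g hfg
  have h1 : Function.update f.1 ⟨x, hTW hxT⟩ δ = Function.update g.1 ⟨x, hTW hxT⟩ δ :=
    congrArg Subtype.val hfg
  have hq : ∀ f : Fo W (edges T q.1), f.1 ⟨x, hTW hxT⟩ = q.1 ⟨x, hxT⟩ := by
    intro f
    obtain ⟨h, h'⟩ := forall_edges.mp f.2.2 ⟨x, hxT⟩
    exact h'
  apply Subtype.ext
  ext1 v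
  by_cases hv : v = ⟨x, hTW hxT⟩
  · rw [hv, hq f, hq g]
  · have := congrFun h1 v
    rwa [Function.update_of_ne hv, Function.update_of_ne hv] at this

/-- a finite set is eventually contained in the exhaustion -/
lemma eventually_subset {W : ℕ → Finset (V d)} (hmono : Monotone W) (hex : ∀ x, ∃ R, x ∈ W R)
    (T : Finset (V d)) : ∀ᶠ R in atTop, T ⊆ W R := by
  classical
  induction T using Finset.induction_on with
  | empty => exact Eventually.of_forall fun R => Finset.empty_subset _
  | insert a s ha ih =>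
    obtain ⟨R0, hR0⟩ := hex a
    filter_upwards [ih, eventually_ge_atTop R0] with R h1 h2
    exact Finset.insert_subset (hmono h2 hR0) h1

/-- the cylinder of a pattern -/
def cyl (T : Finset (V d)) (q : T → Dr d) : Set (Cfg d) := {ρ | ∀ e ∈ edges T q, ρ e.1 = e.2}

lemma pattern_pos_aux (hd : 2 ≤ d) {P : Measure (Cfg d)} (hP : IsOWUSF P) {x : V d}
    {T : Finset (V d)} (hxT : x ∈ T) (hcT : cube x ⊆ T) :
    ∃ q : LQ x T, ∀ δ, 0 < P.real (cyl T (Function.update q.1 ⟨x, hxT⟩ δ)) := by
  classical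
  have := hP.prob
  obtain ⟨W, hmono, hex, hlim⟩ := hP.lim
  have hTW := eventually_subset hmono hex T
  have hnz : ∀ᶠ R in atTop, (forests (W R) ∅ : ℝ) ≠ 0 := by
    have h1 := hlim ∅
    have h2 : P.real {ρ : Cfg d | ∀ e ∈ (∅ : Finset (V d × Dr d)), ρ e.1 = e.2} = 1 := by
      simp
    rw [h2] at h1
    have h3 := h1.eventually (lt_mem_nhds (show (0 : ℝ) < 1 by norm_num))
    filter_upwards [h3] with R hR h0
    rw [h0, div_zero] at hR
    exact lt_irrefl _ hR
  set K : ℝ := (Nat.card (cube x → Dr d) : ℝ) with hK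
  have hle : 1 ≤ ∑ q : LQ x T, P.real (cyl T q.1) * K := by
    have h1 : Tendsto (fun R => ∑ q : LQ x T,
        ((forests (W R) (edges T q.1) : ℝ) / (forests (W R) ∅ : ℝ)) * K) atTop
        (𝓝 (∑ q : LQ x T, P.real (cyl T q.1) * K)) := by
      apply tendsto_finsetSum
      intro q _
      exact (hlim (edges T q.1)).mul_const K
    apply ge_of_tendsto h1
    filter_upwards [hTW, hnz] with R h2 h3
    have h4 := count_leaf hd h2 hxT hcT
    have h5 : (forests (W R) ∅ : ℝ) ≤ ∑ q : LQ x T, (forests (W R) (edges T q.1) : ℝ) * K := by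
      rw [hK]
      exact_mod_cast h4
    have h6 : (0 : ℝ) < (forests (W R) ∅ : ℝ) := lt_of_le_of_ne (Nat.cast_nonneg _) (Ne.symm h3)
    have h7 : ∑ q : LQ x T, ((forests (W R) (edges T q.1) : ℝ) / (forests (W R) ∅ : ℝ)) * K
        = (∑ q : LQ x T, (forests (W R) (edges T q.1) : ℝ) * K) / (forests (W R) ∅ : ℝ) := by
      rw [Finset.sum_div]
      refine Finset.sum_congr rfl fun q _ => ?_
      ring
    rw [h7, le_div_iff₀ h6, one_mul]
    exact h5
  obtain ⟨q, hq⟩ : ∃ q : LQ x T, 0 < P.real (cyl T q.1) := by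
    by_contra hcon
    push Not at hcon
    have h0 : ∀ q : LQ x T, P.real (cyl T q.1) = 0 := fun q =>
      le_antisymm (hcon q) measureReal_nonneg
    simp only [h0, zero_mul, Finset.sum_const_zero] at hle
    norm_num at hle
  refine ⟨q, fun δ => hq.trans_le ?_⟩
  refine le_of_tendsto_of_tendsto (hlim (edges T q.1))
    (hlim (edges T (Function.update q.1 ⟨x, hxT⟩ δ))) ?_
  filter_upwards [hTW] with R h2
  apply div_le_div_of_nonneg_right _ (Nat.cast_nonneg _)
  exact_mod_cast count_swap h2 hxT hcT q δ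

/-- For every finite `T` there is a pattern off `x` such that all rotors at `x` are compatible
with it with positive probability. -/
theorem pattern_pos (hd : 2 ≤ d) {P : Measure (Cfg d)} (hP : IsOWUSF P) (x : V d)
    (T : Finset (V d)) :
    ∃ q : V d → Dr d, ∀ δ, 0 < P {ρ | ρ x = δ ∧ ∀ y ∈ T, y ≠ x → ρ y = q y} := by
  classical
  have := hP.prob
  have hne : Nonempty (Dr d) := ⟨(⟨0, by omega⟩, true)⟩
  set T' := T ∪ insert x (cube x) with hT'
  have hxT : x ∈ T' := by simp [hT']
  have hcT : cube x ⊆ T' := by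
    intro y hy
    simp [hT', hy]
  obtain ⟨q, hq⟩ := pattern_pos_aux hd hP hxT hcT
  refine ⟨fun y => if h : y ∈ T' then q.1 ⟨y, h⟩ else Classical.arbitrary _, fun δ => ?_⟩
  have h1 := hq δ
  have h2 : 0 < P (cyl T' (Function.update q.1 ⟨x, hxT⟩ δ)) := by
    rw [Measure.real, ENNReal.toReal_pos_iff] at h1
    exact h1.1
  refine h2.trans_le (measure_mono ?_)
  intro ρ hρ
  have hρ' := forall_edges.mp hρ
  refine ⟨?_, ?_⟩
  · have := hρ' ⟨x, hxT⟩
    simpa using this
  · intro y hy hyx
    have hyT : y ∈ T' := by simp [hT', hy]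
    have := hρ' ⟨y, hyT⟩
    simp only at this
    rw [this, Function.update_of_ne]
    · simp [hyT]
    · intro h
      exact hyx (congrArg Subtype.val h)

end Pool.Agent.Q171.RW
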