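import Mathlib

/-!
Rotor walk on `ℤ^d`, infinite-step stationary measures and the oriented wired uniform
spanning forest.
-/

namespace Pool.Agent.Q171.RW

open MeasureTheory Filter Topology

/-- The vertices of `ℤ^d`. -/
abbrev V (d : ℕ) := Fin d → ℤ

/-- The `2d` directions: `(i, true)` is `+e_i`, `(i, false)` is `-e_i`. -/
abbrev Dr (d : ℕ) := Fin d × Bool

/-- The unit vector of a direction.  The neighbours of `x` are the `2d` points `x + vec δ`. -/
def vec {d : ℕ} (δ : Dr d) : V d := Pi.single δ.1 (if δ.2 then 1 else -1)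

/-- A rotor configuration: the rotor at `x` points to the neighbour `x + vec (ρ x)`. -/
abbrev Cfg (d : ℕ) := V d → Dr d

/-- One step of rotor walk with local mechanisms `τ`: the rotor at the current position is
advanced, then the walker moves where it points. -/
def step {d : ℕ} (τ : V d → Equiv.Perm (Dr d)) (s : V d × Cfg d) : V d × Cfg d :=
  (s.1 + vec (τ s.1 (s.2 s.1)), Function.update s.2 s.1 (τ s.1 (s.2 s.1)))

/-- Position and rotor configuration after `t` steps of rotor walk from `a`. -/
def walk {d : ℕ} (τ : V d → Equiv.Perm (Dr d)) (a : V d) (ρ : Cfg d) (t : ℕ) : V d × Cfg d :=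
  (step τ)^[t] (a, ρ)

/-- The walk visits every vertex finitely often. -/
def Transient {d : ℕ} (τ : V d → Equiv.Perm (Dr d)) (a : V d) (ρ : Cfg d) : Prop :=
  ∀ x : V d, {t : ℕ | (walk τ a ρ t).1 = x}.Finite

open Classical in
/-- The final rotor configuration: at `x` it is the eventual value of the rotor at `x`
(and, as a junk value, the initial rotor if the rotor at `x` is not eventually constant). -/
noncomputable def final {d : ℕ} (τ : V d → Equiv.Perm (Dr d)) (a : V d) (ρ : Cfg d) : Cfg d :=
  fun x => if h : ∃ δ : Dr d, ∀ᶠ t in atTop, (walk τ a ρ t).2 x = δ then h.choose else ρ x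

/-- `μ` is infinite-step stationary for rotor walk from `a` with mechanisms `τ`.
(If `final τ a` were not a.e.-measurable then `μ.map (final τ a)` would be `0`, so `law`
includes a.e.-measurability.) -/
structure IsStationary {d : ℕ} (τ : V d → Equiv.Perm (Dr d)) (a : V d)
    (μ : Measure (Cfg d)) : Prop where
  prob : IsProbabilityMeasure μ
  transient : ∀ᵐ ρ ∂μ, Transient τ a ρ
  law : μ.map (final τ a) = μ

/-- `f` gives every vertex of the finite set `W` an out-edge of `ℤ^d`; `Acyclic W f` says that
there is no oriented cycle. -/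
def Acyclic {d : ℕ} (W : Finset (V d)) (f : W → Dr d) : Prop :=
  ¬ ∃ (n : ℕ) (c : ℕ → W), 0 < n ∧ c n = c 0 ∧
    ∀ i < n, (c (i + 1) : V d) = (c i : V d) + vec (f (c i))

/-- The number of spanning forests of `ℤ^d` oriented towards `Z = V ∖ W` (out-degree `1` on `W`,
out-degree `0` on `Z`, no oriented cycle) that contain all the oriented edges in `B`;
the oriented edge `(x, δ)` goes from `x` to `x + vec δ`. -/
noncomputable def forests {d : ℕ} (W : Finset (V d)) (B : Finset (V d × Dr d)) : ℕ :=
  Nat.card {f : W → Dr d // Acyclic W f ∧ ∀ e ∈ B, ∃ h : e.1 ∈ W, f ⟨e.1, h⟩ = e.2}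

/-- `P` is the law of the oriented wired uniform spanning forest. -/
structure IsOWUSF {d : ℕ} (P : Measure (Cfg d)) : Prop where
  prob : IsProbabilityMeasure P
  lim : ∃ W : ℕ → Finset (V d), Monotone W ∧ (∀ x, ∃ R, x ∈ W R) ∧
    ∀ B : Finset (V d × Dr d),
      Tendsto (fun R => (forests (W R) B : ℝ) / (forests (W R) ∅ : ℝ)) atTop
        (𝓝 (P.real {ρ | ∀ e ∈ B, ρ e.1 = e.2}))

/-- every mechanism has a single orbit -/
def SingleOrbit {d : ℕ} (τ : V d → Equiv.Perm (Dr d)) : Prop :=
  ∀ (x : V d) (δ δ' : Dr d), ∃ n : ℕ, (τ x ^ n) δ = δ'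

end Pool.Agent.Q171.RW
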