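import Pool.Agent.Q171.RW.Defs

/-!
Surgery on acyclic orientations: leaves have probability bounded below.
-/

namespace Pool.Agent.Q171.RW

open Filter Topology MeasureTheory

variable {d : ℕ}

/-- opposite direction -/
def opp (δ : Dr d) : Dr d := (δ.1, !δ.2)

lemma vec_opp (δ : Dr d) : vec (opp δ) = -vec δ := by
  obtain ⟨i, b⟩ := δ
  ext k
  cases b <;> by_cases hk : k = i
  · subst hk; simp [vec, opp]
  · simp [vec, opp, hk]
  · subst hk; simp [vec, opp]
  · simp [vec, opp, hk]

lemma vec_ne (δ : Dr d) : vec δ ≠ 0 := by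
  intro h
  have := congrFun h δ.1
  obtain ⟨i, b⟩ := δ
  cases b <;> simp [vec] at this

/-- follow the orientation for one step; outside `W` stay put -/
def nxt {W : Finset (V d)} (f : W → Dr d) (v : V d) : V d :=
  if h : v ∈ W then v + vec (f ⟨v, h⟩) else v

lemma nxt_mem {W : Finset (V d)} (f : W → Dr d) {v : V d} (h : v ∈ W) :
    nxt f v = v + vec (f ⟨v, h⟩) := by simp [nxt, h]

lemma nxt_not {W : Finset (V d)} (f : W → Dr d) {v : V d} (h : v ∉ W) :
    nxt f v = v := by simp [nxt, h]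

lemma nxt_iter_not {W : Finset (V d)} (f : W → Dr d) {v : V d} (h : v ∉ W) (n : ℕ) :
    (nxt f)^[n] v = v := Function.iterate_fixed (nxt_not f h) n

lemma acyclic_of_exit {W : Finset (V d)} {f : W → Dr d}
    (h : ∀ v, ∃ n, (nxt f)^[n] v ∉ W) : Acyclic W f := by
  rintro ⟨n, c, hn, hc, hstep⟩
  have h1 : ∀ i ≤ n, (nxt f)^[i] (c 0 : V d) = c i := by
    intro i hi
    induction i with
    | zero => rfl
    | succ i ih =>
      rw [Function.iterate_succ_apply', ih (by omega), nxt_mem f (c i).2, hstep i (by omega)]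
  have h2 : Function.IsPeriodicPt (nxt f) n (c 0 : V d) := by
    rw [Function.IsPeriodicPt, Function.IsFixedPt, h1 n le_rfl, hc]
  obtain ⟨m, hm⟩ := h (c 0)
  apply hm
  rw [← h2.iterate_mod_apply, h1 _ (Nat.mod_lt _ hn).le]
  exact (c _).2

lemma exit_of_acyclic {W : Finset (V d)} {f : W → Dr d} (h : Acyclic W f) (v : V d) :
    ∃ n, (nxt f)^[n] v ∉ W := by
  by_contra hcon
  push Not at hcon
  obtain ⟨i, j, hij, he⟩ := Finite.exists_ne_map_eq_of_infinite
    (fun n : ℕ => (⟨(nxt f)^[n] v, hcon n⟩ : W))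
  wlog hlt : i < j generalizing i j
  · exact this j i (Ne.symm hij) he.symm (by omega)
  apply h
  refine ⟨j - i, fun k => ⟨(nxt f)^[i + k] v, hcon _⟩, by omega, ?_, ?_⟩
  · apply Subtype.ext
    simp only [Nat.add_zero]
    rw [show i + (j - i) = j by omega]
    exact (congrArg Subtype.val he).symm
  · intro k _
    change (nxt f)^[i + (k + 1)] v = _
    rw [← Nat.add_assoc, Function.iterate_succ_apply', nxt_mem f (hcon (i + k))]

lemma acyclic_iff {W : Finset (V d)} {f : W → Dr d} :
    Acyclic W f ↔ ∀ v, ∃ n, (nxt f)^[n] v ∉ W :=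
  ⟨exit_of_acyclic, acyclic_of_exit⟩

/-- changing the out-edge of a leaf keeps acyclicity -/
lemma swap_acyclic {W : Finset (V d)} {f : W → Dr d} (hf : Acyclic W f) (x : W)
    (hleaf : ∀ v ∈ W, nxt f v ≠ x) (δ : Dr d) : Acyclic W (Function.update f x δ) := by
  classical
  rw [acyclic_iff] at hf ⊢
  have h1 : ∀ u : V d, u ≠ x → nxt (Function.update f x δ) u = nxt f u := by
    intro u hu
    by_cases huW : u ∈ W
    · rw [nxt_mem _ huW, nxt_mem _ huW, Function.update_of_ne]
      intro he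
      exact hu (congrArg Subtype.val he)
    · rw [nxt_not _ huW, nxt_not _ huW]
  have h2 : ∀ u : V d, u ≠ x → nxt f u ≠ x := by
    intro u hu
    by_cases huW : u ∈ W
    · exact hleaf u huW
    · rw [nxt_not _ huW]
      exact hu
  have h3 : ∀ v : V d, v ≠ x → ∀ n, (nxt (Function.update f x δ))^[n] v = (nxt f)^[n] v ∧
      (nxt f)^[n] v ≠ x := by
    intro v hv n
    induction n with
    | zero => exact ⟨rfl, hv⟩
    | succ n ih =>
      rw [Function.iterate_succ_apply', Function.iterate_succ_apply', ih.1, h1 _ ih.2]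
      exact ⟨rfl, h2 _ ih.2⟩
  have h4 : ∀ v : V d, v ≠ x → ∃ n, (nxt (Function.update f x δ))^[n] v ∉ W := by
    intro v hv
    obtain ⟨n, hn⟩ := hf v
    exact ⟨n, by rw [(h3 v hv n).1]; exact hn⟩
  intro v
  by_cases hv : v = x
  · have hne : nxt (Function.update f x δ) v ≠ x := by
      rw [hv, nxt_mem _ x.2]
      intro h
      exact vec_ne _ (add_eq_left.mp h)
    obtain ⟨n, hn⟩ := h4 _ hne
    exact ⟨n + 1, by rw [Function.iterate_succ_apply]; exact hn⟩
  · exact h4 v hv

/-- `B` is a connected set, formulated through distance functions -/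
def Conn (B : Finset (V d)) : Prop :=
  ∀ b' ∈ B, ∃ r : V d → ℕ, ∀ b ∈ B, b ≠ b' → ∃ δ, b + vec δ ∈ B ∧ r (b + vec δ) < r b

/-- the surgery -/
lemma surgery {W B : Finset (V d)} (hB : Conn B) (hBW : B ⊆ W) {x : V d} (hxW : x ∈ W)
    (hxB : x ∉ B) (hN : ∀ δ, x + vec δ ∈ B) {f : W → Dr d} (hf : Acyclic W f) :
    ∃ f' : W → Dr d, Acyclic W f' ∧ (∀ v ∈ W, nxt f' v ≠ x) ∧ ∀ v : W, (v : V d) ∉ B → f' v = f v := by
  classical
  have hex := exit_of_acyclic hf
  set p : ℕ → V d := fun n => (nxt f)^[n] x with hp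
  have hpsucc : ∀ n, p (n + 1) = nxt f (p n) := fun n => Function.iterate_succ_apply' _ _ _
  obtain ⟨E, hE⟩ := hex x
  have hpE : ∀ n, E ≤ n → p n ∉ W := by
    intro n hn
    obtain ⟨k, rfl⟩ := Nat.exists_eq_add_of_le hn
    simp only [hp]
    rw [Nat.add_comm, Function.iterate_add_apply, nxt_iter_not f hE]
    exact hE
  have hpx : ∀ n, 0 < n → p n ≠ x := by
    intro n hn hnx
    have h2 : Function.IsPeriodicPt (nxt f) n x := hnx
    have h3 : Function.IsPeriodicPt (nxt f) (n * E) x := h2.mul_const E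
    have h4 : p (n * E) = x := h3
    exact hpE (n * E) (Nat.le_mul_of_pos_left E hn) (by rw [h4]; exact hxW)
  have hp1 : p 1 ∈ B := by
    have : p 1 = nxt f x := hpsucc 0
    rw [this, nxt_mem f hxW]
    exact hN _
  -- last visit of `B`
  have hbd : ∀ n, p n ∈ B → n ≤ E := by
    intro n hn
    by_contra hlt
    exact hpE n (by omega) (hBW hn)
  obtain ⟨n0, hn0B, hn0max⟩ : ∃ n0, p n0 ∈ B ∧ ∀ n, n0 < n → p n ∉ B := by
    have hne : ∃ n, n ≤ E ∧ p n ∈ B := ⟨1, hbd 1 hp1, hp1⟩
    refine ⟨Nat.findGreatest (fun n => p n ∈ B) E, ?_, ?_⟩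
    · obtain ⟨n, hnE, hn⟩ := hne
      exact Nat.findGreatest_spec (P := fun n => p n ∈ B) hnE hn
    · intro n hn hnB
      exact Nat.findGreatest_is_greatest hn (hbd n hnB) hnB
  set b' := p n0 with hb'
  obtain ⟨r, hr⟩ := hB b' hn0B
  have : Nonempty (Dr d) := ⟨f ⟨x, hxW⟩⟩
  choose! g hg1 hg2 using hr
  set f' : W → Dr d := fun v => if (v : V d) ∈ B ∧ (v : V d) ≠ b' then g v else f v with hf'
  have hoff : ∀ v : V d, v ∉ B → nxt f' v = nxt f v := by
    intro v hv
    by_cases hvW : v ∈ W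
    · rw [nxt_mem _ hvW, nxt_mem _ hvW]
      simp [hf', hv]
    · rw [nxt_not _ hvW, nxt_not _ hvW]
  have hb'W : b' ∈ W := hBW hn0B
  have hat : nxt f' b' = nxt f b' := by
    rw [nxt_mem _ hb'W, nxt_mem _ hb'W]
    simp [hf']
  have hin : ∀ b ∈ B, b ≠ b' → nxt f' b = b + vec (g b) := by
    intro b hb hbb
    rw [nxt_mem _ (hBW hb)]
    simp [hf', hb, hbb]
  refine ⟨f', ?_, ?_, ?_⟩
  · rw [acyclic_iff]
    have e1 : ∀ k, (nxt f')^[k] b' = p (n0 + k) := by
      intro k
      induction k with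
      | zero => rfl
      | succ k ih =>
        rw [Function.iterate_succ_apply', ih, ← Nat.add_assoc, hpsucc]
        rcases Nat.eq_zero_or_pos k with rfl | hk
        · exact hat
        · exact hoff _ (hn0max _ (by omega))
    have e2 : ∃ n, (nxt f')^[n] b' ∉ W := ⟨E, by rw [e1]; exact hpE _ (by omega)⟩
    have e3 : ∀ m, ∀ b ∈ B, r b = m → ∃ n, (nxt f')^[n] b ∉ W := by
      intro m
      induction m using Nat.strong_induction_on with
      | _ m ih =>
        intro b hb hrb
        by_cases hbb : b = b'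
        · rw [hbb]; exact e2
        · obtain ⟨n, hn⟩ := ih (r (b + vec (g b))) (by rw [← hrb]; exact hg2 b hb hbb)
            (b + vec (g b)) (hg1 b hb hbb) rfl
          refine ⟨n + 1, ?_⟩
          rw [Function.iterate_succ_apply, hin b hb hbb]
          exact hn
    have e4 : ∀ m, ∀ v : V d, (nxt f)^[m] v ∉ W → ∃ n, (nxt f')^[n] v ∉ W := by
      intro m
      induction m with
      | zero => exact fun v hv => ⟨0, hv⟩
      | succ m ih =>
        intro v hv
        by_cases hvB : v ∈ B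
        · exact e3 _ v hvB rfl
        · rw [Function.iterate_succ_apply] at hv
          obtain ⟨n, hn⟩ := ih _ hv
          refine ⟨n + 1, ?_⟩
          rw [Function.iterate_succ_apply, hoff v hvB]
          exact hn
    intro v
    obtain ⟨m, hm⟩ := hex v
    exact e4 m v hm
  · intro v hvW
    by_cases hvB : v ∈ B
    · by_cases hvb : v = b'
      · rw [hvb, hat, ← hpsucc]
        exact hpx _ (Nat.succ_pos _)
      · rw [hin v hvB hvb]
        intro h
        exact hxB (h ▸ hg1 v hvB hvb)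
    · rw [hoff v hvB, nxt_mem _ hvW]
      intro h
      apply hvB
      have : v = x + vec (opp (f ⟨v, hvW⟩)) := by
        rw [vec_opp, ← h]
        abel
      rw [this]
      exact hN _
  · intro v hv
    simp [hf', hv]

end Pool.Agent.Q171.RW
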