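import Mathlib

/-!
The `ℓ¹` norm on the group algebra of `ℤ^d` and the decay of `P^n s^5`.
-/

namespace Pool.Agent.Q171.RW

open Finset

section Telescoping

/-- total variation of a binomial row, first half -/
lemma var_first (m n : ℕ) (h : n ≤ m) :
    ∑ j ∈ range n, |((2 * m).choose j : ℝ) - ((2 * m).choose (j + 1) : ℝ)|
      = ((2 * m).choose n : ℝ) - 1 := by
  induction n with
  | zero => simp
  | succ n ih =>
    rw [sum_range_succ, ih (by omega)]
    have h1 : (2 * m).choose n ≤ (2 * m).choose (n + 1) :=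
      Nat.choose_le_succ_of_lt_half_left (by omega)
    have h2 : ((2 * m).choose n : ℝ) ≤ ((2 * m).choose (n + 1) : ℝ) := by exact_mod_cast h1
    rw [abs_of_nonpos (by linarith)]
    ring

lemma choose_anti (m j : ℕ) (h : m ≤ j) (h2 : j < 2 * m) :
    (2 * m).choose (j + 1) ≤ (2 * m).choose j := by
  have e1 : (2 * m).choose (j + 1) = (2 * m).choose (2 * m - (j + 1)) :=
    (Nat.choose_symm (by omega)).symm
  have e2 : (2 * m).choose j = (2 * m).choose (2 * m - (j + 1) + 1) := by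
    rw [← Nat.choose_symm (n := 2 * m) (k := j) (by omega)]
    congr 1
    omega
  rw [e1, e2]
  exact Nat.choose_le_succ_of_lt_half_left (by omega)

lemma var_second (m n : ℕ) (h : n ≤ m + 1) :
    ∑ j ∈ range (m + n), |((2 * m).choose j : ℝ) - ((2 * m).choose (j + 1) : ℝ)|
      = 2 * ((2 * m).choose m : ℝ) - 1 - ((2 * m).choose (m + n) : ℝ) := by
  induction n with
  | zero =>
    rw [Nat.add_zero, var_first m m le_rfl]
    ring
  | succ n ih =>
    rw [← Nat.add_assoc, sum_range_succ, ih (by omega)]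
    have h2 : ((2 * m).choose (m + n + 1) : ℝ) ≤ ((2 * m).choose (m + n) : ℝ) := by
      rcases Nat.lt_or_ge (m + n) (2 * m) with h3 | h3
      · exact_mod_cast choose_anti m (m + n) (by omega) h3
      · rw [Nat.choose_eq_zero_of_lt (show 2 * m < m + n + 1 by omega)]
        exact_mod_cast Nat.zero_le _
    rw [abs_of_nonneg (by linarith)]
    ring

lemma var_total (m : ℕ) :
    1 + ∑ j ∈ range (2 * m + 1), |((2 * m).choose j : ℝ) - ((2 * m).choose (j + 1) : ℝ)|
      = 2 * (Nat.centralBinom m : ℝ) := by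
  have h := var_second m (m + 1) le_rfl
  have e : m + (m + 1) = 2 * m + 1 := by ring
  rw [e] at h
  rw [h, Nat.choose_eq_zero_of_lt (show 2 * m < 2 * m + 1 by omega), Nat.centralBinom]
  push_cast
  ring

/-- `(C(2j,j)/4^j)^2 (2j+1) ≤ 1` -/
lemma central_sq (j : ℕ) :
    ((Nat.centralBinom j : ℝ) / 4 ^ j) ^ 2 * (2 * j + 1) ≤ 1 := by
  induction j with
  | zero => simp
  | succ j ih =>
    have h := Nat.succ_mul_centralBinom_succ j
    have h' : ((j : ℝ) + 1) * (Nat.centralBinom (j + 1) : ℝ)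
        = 2 * (2 * j + 1) * (Nat.centralBinom j : ℝ) := by exact_mod_cast h
    have hj : (0 : ℝ) < (j : ℝ) + 1 := by positivity
    have e1 : (Nat.centralBinom (j + 1) : ℝ) / 4 ^ (j + 1)
        = ((Nat.centralBinom j : ℝ) / 4 ^ j) * ((2 * j + 1) / (2 * j + 2)) := by
      have : (Nat.centralBinom (j + 1) : ℝ)
          = 2 * (2 * j + 1) * (Nat.centralBinom j : ℝ) / (j + 1) := by
        field_simp
        linarith
      rw [this]
      field_simp
      ring
    rw [e1, mul_pow]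
    have hx : (0 : ℝ) ≤ ((Nat.centralBinom j : ℝ) / 4 ^ j) ^ 2 := by positivity
    have h3 : ((2 * (j : ℝ) + 1) / (2 * j + 2)) ^ 2 * (2 * ((j + 1 : ℕ) : ℝ) + 1)
        ≤ (2 * j + 1) := by
      rw [div_pow, div_mul_eq_mul_div, div_le_iff₀ (by positivity)]
      push_cast
      nlinarith [Nat.cast_nonneg (α := ℝ) j]
    calc ((Nat.centralBinom j : ℝ) / 4 ^ j) ^ 2 * ((2 * (j : ℝ) + 1) / (2 * j + 2)) ^ 2
          * (2 * ((j + 1 : ℕ) : ℝ) + 1)
        = ((Nat.centralBinom j : ℝ) / 4 ^ j) ^ 2 * (((2 * (j : ℝ) + 1) / (2 * j + 2)) ^ 2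
          * (2 * ((j + 1 : ℕ) : ℝ) + 1)) := by ring
      _ ≤ ((Nat.centralBinom j : ℝ) / 4 ^ j) ^ 2 * (2 * j + 1) :=
          mul_le_mul_of_nonneg_left h3 hx
      _ ≤ 1 := ih

end Telescoping

section Algebra

variable {G : Type*} [AddCommGroup G]

/-- the `ℓ¹` norm -/
noncomputable def N (f : AddMonoidAlgebra ℝ G) : ℝ := ∑' x, |f.coeff x|

omit [AddCommGroup G] in
lemma N_finite (f : AddMonoidAlgebra ℝ G) : (Function.support fun x => |f.coeff x|).Finite :=
  f.coeff.support.finite_toSet.subset (by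
    intro x hx
    simpa using hx)

omit [AddCommGroup G] in
lemma N_summable (f : AddMonoidAlgebra ℝ G) : Summable fun x => |f.coeff x| :=
  summable_of_hasFiniteSupport (N_finite f)

omit [AddCommGroup G] in
lemma N_nonneg (f : AddMonoidAlgebra ℝ G) : 0 ≤ N f := tsum_nonneg fun _ => abs_nonneg _

lemma N_zero : N (0 : AddMonoidAlgebra ℝ G) = 0 := by simp [N]

lemma N_add (f g : AddMonoidAlgebra ℝ G) : N (f + g) ≤ N f + N g := by
  unfold N
  rw [← (N_summable f).tsum_add (N_summable g)]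
  refine (N_summable (f + g)).tsum_le_tsum (fun x => ?_)
    ((N_summable f).add (N_summable g))
  rw [AddMonoidAlgebra.coeff_add]
  exact abs_add_le (f.coeff x) (g.coeff x)

lemma N_smul (r : ℝ) (f : AddMonoidAlgebra ℝ G) : N (r • f) = |r| * N f := by
  unfold N
  rw [← tsum_mul_left]
  refine tsum_congr fun x => ?_
  rw [AddMonoidAlgebra.coeff_smul_apply, smul_eq_mul, abs_mul]

lemma N_sum {ι : Type*} (s : Finset ι) (f : ι → AddMonoidAlgebra ℝ G) :
    N (∑ i ∈ s, f i) ≤ ∑ i ∈ s, N (f i) := by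
  classical
  induction s using Finset.induction_on with
  | empty => simp [N_zero]
  | insert a s ha ih =>
    rw [sum_insert ha, sum_insert ha]
    exact (N_add _ _).trans (by linarith)

lemma N_single_mul (a : G) (r : ℝ) (f : AddMonoidAlgebra ℝ G) :
    N (AddMonoidAlgebra.single a r * f) = |r| * N f := by
  unfold N
  have : ∀ x, |(AddMonoidAlgebra.single a r * f).coeff x| = |r| * |f.coeff (-a + x)| := by
    intro x
    rw [AddMonoidAlgebra.coeff_single_mul_apply, abs_mul]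
  simp_rw [this]
  rw [tsum_mul_left]
  congr 1
  exact (Equiv.addLeft (-a)).tsum_eq (fun x => |f.coeff x|)

lemma N_one : N (1 : AddMonoidAlgebra ℝ G) = 1 := by
  unfold N
  rw [tsum_eq_single 0]
  · simp [AddMonoidAlgebra.one_def]
  · intro b hb
    simp [AddMonoidAlgebra.one_def, Ne.symm hb]

lemma N_single (a : G) (r : ℝ) : N (AddMonoidAlgebra.single a r) = |r| := by
  have h := N_single_mul a r (1 : AddMonoidAlgebra ℝ G)
  rwa [mul_one, N_one, mul_one] at h

lemma N_mul (f g : AddMonoidAlgebra ℝ G) : N (f * g) ≤ N f * N g := by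
  have h1 : N f = ∑ a ∈ f.coeff.support, |f.coeff a| := by
    unfold N
    apply tsum_eq_sum
    intro b hb
    simpa using hb
  have h2 : f * g = ∑ a ∈ f.coeff.support, AddMonoidAlgebra.single a (f.coeff a) * g := by
    conv_lhs => rw [← AddMonoidAlgebra.sum_coeff_single f]
    rw [Finsupp.sum, sum_mul]
  rw [h1, sum_mul, h2]
  refine (N_sum _ _).trans (le_of_eq ?_)
  exact sum_congr rfl fun a _ => N_single_mul _ _ _

lemma N_pow (f : AddMonoidAlgebra ℝ G) (q : ℝ) (hf : N f ≤ q) (n : ℕ) : N (f ^ n) ≤ q ^ n := by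
  have hq : 0 ≤ q := (N_nonneg f).trans hf
  induction n with
  | zero => simp [N_one]
  | succ n ih =>
    rw [pow_succ, pow_succ]
    exact (N_mul _ _).trans (mul_le_mul ih hf (N_nonneg _) (by positivity))

/-- the key one-dimensional estimate -/
lemma N_diff (v : G) (m : ℕ) :
    N ((AddMonoidAlgebra.single v (1 : ℝ) - AddMonoidAlgebra.single (-v) 1)
        * ((1 / 2 : ℝ) • (AddMonoidAlgebra.single v (1 : ℝ) + AddMonoidAlgebra.single (-v) 1))
          ^ (2 * m))
      ≤ 2 * ((Nat.centralBinom m : ℝ) / 4 ^ m) := by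
  set w : AddMonoidAlgebra ℝ G := AddMonoidAlgebra.single (v + v) (1 : ℝ) with hw
  set z : AddMonoidAlgebra ℝ G := AddMonoidAlgebra.single (-v) (1 : ℝ) with hz
  have e1 : AddMonoidAlgebra.single v (1 : ℝ) = z * w := by
    rw [hz, hw, AddMonoidAlgebra.single_mul_single]
    congr 1
    · abel
    · norm_num
  have hwpow : ∀ j : ℕ, N (w ^ j) = 1 := by
    intro j
    rw [hw, AddMonoidAlgebra.single_pow, N_single]
    simp
  have hzpow : ∀ (j : ℕ) (g : AddMonoidAlgebra ℝ G), N (z ^ j * g) = N g := by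
    intro j g
    rw [hz, AddMonoidAlgebra.single_pow, N_single_mul]
    simp
  have e2 : (AddMonoidAlgebra.single v (1 : ℝ) - z)
        * ((1 / 2 : ℝ) • (AddMonoidAlgebra.single v (1 : ℝ) + z)) ^ (2 * m)
      = ((1 / 2 : ℝ) ^ (2 * m)) • (z ^ (2 * m + 1) * ((w - 1) * (w + 1) ^ (2 * m))) := by
    rw [smul_pow, mul_smul_comm, e1]
    congr 1
    have : z * w + z = z * (w + 1) := by ring
    rw [this, mul_pow]
    ring
  rw [e2, N_smul, hzpow]
  have e3 : (w - 1) * (w + 1) ^ (2 * m)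
      = (-1 : ℝ) • (1 : AddMonoidAlgebra ℝ G) + ∑ j ∈ range (2 * m + 1),
          (((2 * m).choose j : ℝ) - ((2 * m).choose (j + 1) : ℝ)) • w ^ (j + 1) := by
    have a1 : (w + 1) ^ (2 * m) = ∑ j ∈ range (2 * m + 1), ((2 * m).choose j : ℝ) • w ^ j := by
      rw [add_pow]
      refine sum_congr rfl fun j _ => ?_
      rw [one_pow, mul_one, Nat.cast_smul_eq_nsmul, nsmul_eq_mul, mul_comm]
    have a2 : (w + 1) ^ (2 * m) = ∑ j ∈ range (2 * m + 1),
        ((2 * m).choose (j + 1) : ℝ) • w ^ (j + 1) + 1 := by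
      have : (w + 1) ^ (2 * m)
          = ∑ j ∈ range (2 * m + 1 + 1), ((2 * m).choose j : ℝ) • w ^ j := by
        rw [sum_range_succ, ← a1,
          Nat.choose_eq_zero_of_lt (show 2 * m < 2 * m + 1 by omega)]
        simp
      rw [this, sum_range_succ']
      simp
    have a3 : w * (w + 1) ^ (2 * m)
        = ∑ j ∈ range (2 * m + 1), ((2 * m).choose j : ℝ) • w ^ (j + 1) := by
      rw [a1, mul_sum]
      refine sum_congr rfl fun j _ => ?_
      rw [mul_smul_comm, pow_succ']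
    rw [sub_mul, one_mul, a3]
    conv_lhs => rw [a2]
    simp_rw [sub_smul]
    rw [sum_sub_distrib, neg_smul, one_smul]
    ring
  have e4 : N ((w - 1) * (w + 1) ^ (2 * m)) ≤ 2 * (Nat.centralBinom m : ℝ) := by
    rw [e3, ← var_total m]
    refine (N_add _ _).trans (add_le_add ?_ ?_)
    · rw [N_smul, N_one]
      norm_num
    · refine (N_sum _ _).trans (le_of_eq ?_)
      refine sum_congr rfl fun j _ => ?_
      rw [N_smul, hwpow, mul_one]
  have e5 : |((1 / 2 : ℝ) ^ (2 * m))| = 1 / 4 ^ m := by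
    rw [abs_of_nonneg (by positivity), pow_mul, ← one_div_pow]
    norm_num
  rw [e5]
  calc 1 / 4 ^ m * N ((w - 1) * (w + 1) ^ (2 * m))
      ≤ 1 / 4 ^ m * (2 * (Nat.centralBinom m : ℝ)) :=
        mul_le_mul_of_nonneg_left e4 (by positivity)
    _ = 2 * ((Nat.centralBinom m : ℝ) / 4 ^ m) := by ring

/-- fifth differences decay quadratically -/
lemma N_five (v : G) (m : ℕ) :
    N (((1 / 2 : ℝ) • (AddMonoidAlgebra.single v (1 : ℝ) + AddMonoidAlgebra.single (-v) 1)) ^ m
        * (AddMonoidAlgebra.single v (1 : ℝ) - AddMonoidAlgebra.single (-v) 1) ^ 5)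
      ≤ 8192 / ((m + 1) * (m + 2)) := by
  set s : AddMonoidAlgebra ℝ G :=
    AddMonoidAlgebra.single v (1 : ℝ) - AddMonoidAlgebra.single (-v) 1 with hs
  set c : AddMonoidAlgebra ℝ G :=
    (1 / 2 : ℝ) • (AddMonoidAlgebra.single v (1 : ℝ) + AddMonoidAlgebra.single (-v) 1) with hc
  have hNc : N c ≤ 1 := by
    rw [hc, N_smul]
    have := N_add (AddMonoidAlgebra.single v (1 : ℝ)) (AddMonoidAlgebra.single (-v) 1)
    rw [N_single, N_single] at this
    rw [abs_of_nonneg (by norm_num)]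
    norm_num at this
    linarith
  have hNs : N s ≤ 2 := by
    have e : s = AddMonoidAlgebra.single v (1 : ℝ) + AddMonoidAlgebra.single (-v) (-1) := by
      rw [hs, sub_eq_add_neg, ← AddMonoidAlgebra.single_neg]
    rw [e]
    have := N_add (AddMonoidAlgebra.single v (1 : ℝ)) (AddMonoidAlgebra.single (-v) (-1))
    rw [N_single, N_single, abs_neg, abs_one] at this
    linarith
  set j := m / 8 with hj
  obtain ⟨r, hr⟩ : ∃ r, m = 8 * j + r := ⟨m % 8, by omega⟩
  have hr8 : r < 8 := by omega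
  have e : c ^ m * s ^ 5 = (s * c ^ (2 * j)) ^ 4 * (c ^ r * s) := by
    rw [hr]
    ring
  set A := (Nat.centralBinom j : ℝ) / 4 ^ j with hA
  have hA0 : 0 ≤ A := by positivity
  have h1 : N (s * c ^ (2 * j)) ≤ 2 * A := N_diff v j
  have h2 : N ((s * c ^ (2 * j)) ^ 4) ≤ (2 * A) ^ 4 := N_pow _ _ h1 4
  have h3 : N (c ^ r * s) ≤ 2 := by
    refine (N_mul _ _).trans ?_
    have := N_pow c 1 hNc r
    rw [one_pow] at this
    nlinarith [N_nonneg s, N_nonneg (c ^ r)]
  have h4 : N (c ^ m * s ^ 5) ≤ (2 * A) ^ 4 * 2 := by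
    rw [e]
    exact (N_mul _ _).trans (mul_le_mul h2 h3 (N_nonneg _) (by positivity))
  refine h4.trans ?_
  have h5 := central_sq j
  rw [← hA] at h5
  have hj0 : (0 : ℝ) < 2 * j + 1 := by positivity
  have h6 : A ^ 2 ≤ 1 / (2 * j + 1) := by
    rw [le_div_iff₀ hj0]
    exact h5
  have h7 : (2 * A) ^ 4 * 2 ≤ 32 * (1 / (2 * j + 1)) ^ 2 := by
    have : (A ^ 2) ^ 2 ≤ (1 / (2 * (j : ℝ) + 1)) ^ 2 := pow_le_pow_left₀ (by positivity) h6 2
    nlinarith
  refine h7.trans ?_
  have h8 : ((m : ℝ) + 2) ≤ 16 * (2 * j + 1) := by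
    have : m + 2 ≤ 16 * (2 * j + 1) := by omega
    exact_mod_cast this
  rw [one_div_pow, mul_one_div, div_le_div_iff₀ (by positivity) (by positivity)]
  have h9 : ((m : ℝ) + 1) * (m + 2) ≤ (16 * (2 * j + 1)) ^ 2 := by
    have hm : (0 : ℝ) ≤ m := Nat.cast_nonneg m
    nlinarith
  nlinarith

/-- averaging over a binomial number of steps in the first direction -/
lemma N_binomial (p q C : ℝ) (hp : 0 < p) (hq : 0 ≤ q) (hpq : p + q = 1)
    (c R φ : AddMonoidAlgebra ℝ G) (hR : N R ≤ q)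
    (hC : ∀ m : ℕ, N (c ^ m * φ) ≤ C / ((m + 1) * (m + 2))) (n : ℕ) :
    N ((p • c + R) ^ n * φ) ≤ C / (p ^ 2 * ((n + 1) * (n + 2))) := by
  have hC0 : 0 ≤ C := by
    have := (N_nonneg _).trans (hC 0)
    norm_num at this
    linarith
  have e1 : (p • c + R) ^ n * φ = ∑ m ∈ range (n + 1),
      (p ^ m * (n.choose m : ℝ)) • (R ^ (n - m) * (c ^ m * φ)) := by
    rw [add_pow, sum_mul]
    refine sum_congr rfl fun m _ => ?_
    rw [smul_pow, mul_smul]
    simp only [smul_mul_assoc]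
    congr 1
    rw [Nat.cast_smul_eq_nsmul, nsmul_eq_mul]
    ring
  rw [e1]
  refine (N_sum _ _).trans ?_
  have e2 : ∀ m ∈ range (n + 1), N ((p ^ m * (n.choose m : ℝ)) • (R ^ (n - m) * (c ^ m * φ)))
      ≤ C / (p ^ 2 * ((n + 1) * (n + 2))) *
        (p ^ (m + 2) * q ^ (n + 2 - (m + 2)) * ((n + 2).choose (m + 2) : ℝ)) := by
    intro m hm
    rw [N_smul, abs_of_nonneg (by positivity)]
    have b1 : N (R ^ (n - m) * (c ^ m * φ)) ≤ q ^ (n - m) * (C / ((m + 1) * (m + 2))) :=
      (N_mul _ _).trans (mul_le_mul (N_pow R q hR _) (hC m) (N_nonneg _) (by positivity))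
    have b2 : ((n : ℝ) + 1) * (n + 2) * (n.choose m : ℝ)
        = ((n + 2).choose (m + 2) : ℝ) * ((m + 1) * (m + 2)) := by
      have c1 := Nat.add_one_mul_choose_eq n m
      have c2 := Nat.add_one_mul_choose_eq (n + 1) (m + 1)
      have c1' : ((n : ℝ) + 1) * (n.choose m : ℝ) = ((n + 1).choose (m + 1) : ℝ) * (m + 1) := by
        exact_mod_cast c1
      have c2' : ((n : ℝ) + 2) * ((n + 1).choose (m + 1) : ℝ)
          = ((n + 2).choose (m + 2) : ℝ) * (m + 2) := by
        have : ((n + 1 + 1 : ℕ) : ℝ) * ((n + 1).choose (m + 1) : ℝ)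
          = ((n + 1 + 1).choose (m + 1 + 1) : ℝ) * ((m + 1 + 1 : ℕ) : ℝ) := by exact_mod_cast c2
        push_cast at this
        convert this using 2 <;> ring
      calc ((n : ℝ) + 1) * (n + 2) * (n.choose m : ℝ)
          = (n + 2) * (((n : ℝ) + 1) * (n.choose m : ℝ)) := by ring
        _ = (((n : ℝ) + 2) * ((n + 1).choose (m + 1) : ℝ)) * (m + 1) := by rw [c1']; ring
        _ = _ := by rw [c2']; ring
    have b3 : (n.choose m : ℝ) = ((n + 2).choose (m + 2) : ℝ) * ((m + 1) * (m + 2))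
        / (((n : ℝ) + 1) * (n + 2)) := by
      rw [← b2]
      field_simp
    refine (mul_le_mul_of_nonneg_left b1 (by positivity)).trans (le_of_eq ?_)
    have e3 : n + 2 - (m + 2) = n - m := by omega
    rw [e3, b3, pow_add p m 2]
    field_simp
  refine (sum_le_sum e2).trans ?_
  rw [← mul_sum]
  have e4 : ∑ m ∈ range (n + 1),
      (p ^ (m + 2) * q ^ (n + 2 - (m + 2)) * ((n + 2).choose (m + 2) : ℝ)) ≤ 1 := by
    have : (p + q) ^ (n + 2) = 1 := by rw [hpq, one_pow]
    rw [add_pow, sum_range_succ', sum_range_succ'] at this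
    have h0 : 0 ≤ p ^ (0 + 1) * q ^ (n + 2 - (0 + 1)) * ((n + 2).choose (0 + 1) : ℝ) := by
      positivity
    have h1 : 0 ≤ p ^ 0 * q ^ (n + 2 - 0) * ((n + 2).choose 0 : ℝ) := by positivity
    have e5 : ∀ m, p ^ (m + 1 + 1) * q ^ (n + 2 - (m + 1 + 1)) * ((n + 2).choose (m + 1 + 1) : ℝ)
        = p ^ (m + 2) * q ^ (n + 2 - (m + 2)) * ((n + 2).choose (m + 2) : ℝ) := fun m => rfl
    simp only [e5] at this
    linarith
  calc C / (p ^ 2 * ((n + 1) * (n + 2))) * _ ≤ C / (p ^ 2 * ((n + 1) * (n + 2))) * 1 :=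
        mul_le_mul_of_nonneg_left e4 (by positivity)
    _ = _ := by ring

end Algebra

end Pool.Agent.Q171.RW
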