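import Pool.Agent.Q171.RW.Defs
import Pool.Agent.Q171.RW.Norm

/-!
A summable non-integral function on `ℤ^d` with integral Laplacian, vanishing at a given point.
-/

namespace Pool.Agent.Q171.RW

open Finset

variable {d : ℕ}

noncomputable section

/-- the unit vector -/
def ev (i : Fin d) : V d := Pi.single i 1

lemma vec_true (i : Fin d) : vec (i, true) = ev i := by simp [vec, ev]
lemma vec_false (i : Fin d) : vec (i, false) = -ev i := by simp [vec, ev, ← Pi.single_neg]

/-- the transition operator as an element of the group algebra -/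
def PP (d : ℕ) : AddMonoidAlgebra ℝ (V d) :=
  (1 / (2 * d : ℝ)) • ∑ δ : Dr d, AddMonoidAlgebra.single (-vec δ) (1 : ℝ)

/-- `z - z⁻¹` -/
def ss (i : Fin d) : AddMonoidAlgebra ℝ (V d) :=
  AddMonoidAlgebra.single (ev i) (1 : ℝ) - AddMonoidAlgebra.single (-ev i) 1

lemma PP_coeff (f : AddMonoidAlgebra ℝ (V d)) (x : V d) :
    (PP d * f).coeff x = (1 / (2 * d : ℝ)) * ∑ δ : Dr d, f.coeff (x + vec δ) := by
  rw [PP, smul_mul_assoc, AddMonoidAlgebra.coeff_smul_apply, smul_eq_mul, sum_mul,
    AddMonoidAlgebra.coeff_sum, Finsupp.finsetSum_apply]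
  congr 1
  refine sum_congr rfl fun δ _ => ?_
  rw [AddMonoidAlgebra.coeff_single_mul_apply, one_mul, neg_neg, add_comm]

lemma ss_coeff (i : Fin d) (f : AddMonoidAlgebra ℝ (V d)) (x : V d) :
    (ss i * f).coeff x = f.coeff (x - ev i) - f.coeff (x + ev i) := by
  rw [ss, sub_mul, AddMonoidAlgebra.coeff_sub, Finsupp.sub_apply,
    AddMonoidAlgebra.coeff_single_mul_apply, AddMonoidAlgebra.coeff_single_mul_apply,
    one_mul, one_mul, neg_neg]
  congr 2 <;> abel

lemma ss_pow_int (i : Fin d) (k : ℕ) (x : V d) : ∃ n : ℤ, (ss i ^ k).coeff x = n := by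
  induction k generalizing x with
  | zero =>
    rw [pow_zero, AddMonoidAlgebra.one_def, AddMonoidAlgebra.coeff_single, Finsupp.single_apply]
    split_ifs
    · exact ⟨1, by simp⟩
    · exact ⟨0, by simp⟩
  | succ k ih =>
    rw [pow_succ', ss_coeff]
    obtain ⟨m, hm⟩ := ih (x - ev i)
    obtain ⟨n, hn⟩ := ih (x + ev i)
    exact ⟨m - n, by rw [hm, hn]; push_cast; ring⟩

lemma ss_pow_supp (i j : Fin d) (hij : i ≠ j) (k : ℕ) (x : V d) (hx : x j ≠ 0) :
    (ss i ^ k).coeff x = 0 := by
  induction k generalizing x with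
  | zero =>
    rw [pow_zero, AddMonoidAlgebra.one_def, AddMonoidAlgebra.coeff_single, Finsupp.single_apply,
      if_neg]
    rintro rfl
    exact hx rfl
  | succ k ih =>
    rw [pow_succ', ss_coeff, ih, ih, sub_zero]
    · simpa [ev, Pi.single_apply, Ne.symm hij] using hx
    · simpa [ev, Pi.single_apply, Ne.symm hij] using hx

lemma ss_pow_ne (i : Fin d) (k : ℕ) : ss i ^ k ≠ 0 := by
  apply pow_ne_zero
  intro h
  have h1 := congrArg (fun f => AddMonoidAlgebra.coeff f (ev i)) h
  simp only [ss, AddMonoidAlgebra.coeff_sub, Finsupp.sub_apply, AddMonoidAlgebra.coeff_single,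
    AddMonoidAlgebra.coeff_zero, Finsupp.coe_zero, Pi.zero_apply] at h1
  rw [Finsupp.single_eq_same, Finsupp.single_apply, if_neg] at h1
  · norm_num at h1
  · intro h2
    have := congrFun h2 i
    simp [ev] at this

/-- the reflection in the `i`-th coordinate -/
def refl (i : Fin d) (x : V d) : V d := fun j => if j = i then - x j else x j

/-- the reflection on directions -/
def dref (i : Fin d) : Equiv.Perm (Dr d) where
  toFun δ := (δ.1, if δ.1 = i then !δ.2 else δ.2)
  invFun δ := (δ.1, if δ.1 = i then !δ.2 else δ.2)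
  left_inv := by
    rintro ⟨j, b⟩
    by_cases h : j = i <;> simp [h]
  right_inv := by
    rintro ⟨j, b⟩
    by_cases h : j = i <;> simp [h]

lemma refl_vec (i : Fin d) (x : V d) (δ : Dr d) :
    refl i (x + vec (dref i δ)) = refl i x + vec δ := by
  obtain ⟨j, b⟩ := δ
  ext k
  by_cases hk : k = i
  · subst hk
    by_cases hj : j = k
    · subst hj
      cases b <;> simp [refl, vec, dref] <;> ring
    · simp [refl, vec, dref, hj, Ne.symm hj]
  · by_cases hj : j = i
    · subst hj
      simp [refl, vec, dref, hk]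
    · simp [refl, vec, dref, hk, hj]

lemma refl_ev_add (i : Fin d) (x : V d) : refl i x + ev i = refl i (x - ev i) := by
  ext k
  by_cases hk : k = i
  · subst hk
    simp [refl, ev]
    ring
  · simp [refl, ev, hk]

lemma refl_ev_sub (i : Fin d) (x : V d) : refl i x - ev i = refl i (x + ev i) := by
  ext k
  by_cases hk : k = i
  · subst hk
    simp [refl, ev]
    ring
  · simp [refl, ev, hk]

lemma refl_zero (i : Fin d) : refl i 0 = 0 := by
  ext k
  simp [refl]

lemma ss_pow_refl (i : Fin d) (k : ℕ) (x : V d) :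
    (ss i ^ k).coeff (refl i x) = (-1) ^ k * (ss i ^ k).coeff x := by
  induction k generalizing x with
  | zero =>
    rw [pow_zero, AddMonoidAlgebra.one_def, AddMonoidAlgebra.coeff_single, pow_zero, one_mul,
      Finsupp.single_apply, Finsupp.single_apply]
    have : (0 = refl i x) ↔ (0 = x) := by
      constructor
      · intro h
        ext k
        have := congrFun h k
        by_cases hk : k = i
        · subst hk
          simp [refl] at this
          simpa using this.symm
        · simpa [refl, hk] using this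
      · rintro rfl
        exact (refl_zero i).symm
    simp only [this]
  | succ k ih =>
    rw [pow_succ', ss_coeff, ss_coeff, refl_ev_add, refl_ev_sub, ih, ih]
    ring

/-- the iterates -/
def gg (i : Fin d) (n : ℕ) : AddMonoidAlgebra ℝ (V d) := PP d ^ n * ss i ^ 5

lemma gg_succ (i : Fin d) (n : ℕ) (x : V d) :
    (gg i (n + 1)).coeff x = (1 / (2 * d : ℝ)) * ∑ δ : Dr d, (gg i n).coeff (x + vec δ) := by
  rw [gg, pow_succ', mul_assoc, PP_coeff, gg]

lemma gg_odd (i : Fin d) (n : ℕ) (x : V d) :
    (gg i n).coeff (refl i x) = - (gg i n).coeff x := by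
  induction n generalizing x with
  | zero =>
    rw [gg, pow_zero, one_mul, ss_pow_refl]
    norm_num
  | succ n ih =>
    rw [gg_succ, gg_succ, ← mul_neg, ← sum_neg_distrib]
    congr 1
    rw [← Equiv.sum_comp (dref i) (fun δ => - (gg i n).coeff (x + vec δ))]
    refine sum_congr rfl fun δ _ => ?_
    rw [← ih, refl_vec]

lemma gg_bound (i : Fin d) (n : ℕ) :
    N (gg i n) ≤ 8192 * (d : ℝ) ^ 2 / ((n + 1) * (n + 2)) := by
  have hd : (0 : ℝ) < d := by
    have : 0 < d := i.pos
    exact_mod_cast this
  have hd1 : (1 : ℝ) ≤ d := by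
    have : 0 < d := i.pos
    exact_mod_cast this
  set c : AddMonoidAlgebra ℝ (V d) :=
    (1 / 2 : ℝ) • (AddMonoidAlgebra.single (ev i) (1 : ℝ)
      + AddMonoidAlgebra.single (-ev i) 1) with hc
  set R : AddMonoidAlgebra ℝ (V d) := (1 / (2 * d : ℝ)) •
    ∑ δ ∈ (univ : Finset (Dr d)).filter (fun δ => δ.1 ≠ i),
      AddMonoidAlgebra.single (-vec δ) (1 : ℝ) with hR
  have e1 : PP d = (1 / d : ℝ) • c + R := by
    rw [PP, hR, hc, ← sum_filter_add_sum_filter_not univ (fun δ : Dr d => δ.1 = i), smul_add]
    congr 1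
    have : (univ : Finset (Dr d)).filter (fun δ => δ.1 = i) = {(i, true), (i, false)} := by
      ext ⟨j, b⟩
      cases b <;> simp
    rw [this, sum_pair (by simp), vec_true, vec_false, neg_neg, smul_smul]
    rw [add_comm (AddMonoidAlgebra.single (-ev i) (1 : ℝ))]
    congr 1
    field_simp
  have hcard : ((univ : Finset (Dr d)).filter (fun δ => δ.1 ≠ i)).card = 2 * d - 2 := by
    have h1 := card_filter_add_card_filter_not (s := (univ : Finset (Dr d))) (fun δ => δ.1 = i)
    have : (univ : Finset (Dr d)).filter (fun δ => δ.1 = i) = {(i, true), (i, false)} := by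
      ext ⟨j, b⟩
      cases b <;> simp
    rw [this, card_pair (by simp), card_univ, Fintype.card_prod, Fintype.card_fin,
      Fintype.card_bool] at h1
    simp only [ne_eq]
    omega
  have hNR : N R ≤ 1 - 1 / d := by
    rw [hR, N_smul, abs_of_nonneg (by positivity)]
    have h2 : N (∑ δ ∈ (univ : Finset (Dr d)).filter (fun δ => δ.1 ≠ i),
      AddMonoidAlgebra.single (-vec δ) (1 : ℝ)) ≤ 2 * d - 2 := by
      refine (N_sum _ _).trans ?_
      simp only [N_single, abs_one, sum_const, nsmul_eq_mul, mul_one]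
      rw [hcard]
      have : 0 < d := i.pos
      rw [Nat.cast_sub (by omega)]
      push_cast
      exact le_rfl
    calc 1 / (2 * d : ℝ) * _ ≤ 1 / (2 * d : ℝ) * (2 * d - 2) :=
          mul_le_mul_of_nonneg_left h2 (by positivity)
      _ = 1 - 1 / d := by field_simp
  have h := N_binomial (1 / d : ℝ) (1 - 1 / d) 8192 (by positivity)
    (by rw [sub_nonneg, div_le_one hd]; exact hd1) (by ring) c R (ss i ^ 5) hNR
    (fun m => N_five (ev i) m) n
  rw [gg, e1]
  refine h.trans (le_of_eq ?_)
  field_simp

lemma gg_summable_N (i : Fin d) : Summable fun n => N (gg i n) := by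
  have h1 : Summable fun n : ℕ => 8192 * (d : ℝ) ^ 2 * (1 / ((n : ℝ) + 1) ^ 2) := by
    apply Summable.mul_left
    have := (summable_nat_add_iff 1).mpr (Real.summable_one_div_nat_pow.mpr (one_lt_two))
    refine this.congr fun n => ?_
    push_cast
    rfl
  refine Summable.of_nonneg_of_le (fun n => N_nonneg _) (fun n => ?_) h1
  refine (gg_bound i n).trans ?_
  rw [mul_one_div]
  apply div_le_div_of_nonneg_left (by positivity) (by positivity)
  have : (0 : ℝ) ≤ n := Nat.cast_nonneg n
  nlinarith

lemma prod_summable {G : Type*} (g : ℕ → AddMonoidAlgebra ℝ G)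
    (h : Summable fun n => ∑' x, |(g n).coeff x|) :
    Summable fun q : G × ℕ => |(g q.2).coeff q.1| := by
  have h1 : Summable fun q : ℕ × G => |(g q.1).coeff q.2| :=
    (summable_prod_of_nonneg (f := fun q : ℕ × G => |(g q.1).coeff q.2|)
      (fun q => abs_nonneg _)).mpr ⟨fun n => N_summable (g n), h⟩
  exact h1.prod_symm

lemma gg_prod (i : Fin d) : Summable fun q : V d × ℕ => |(gg i q.2).coeff q.1| := by
  apply prod_summable
  have := gg_summable_N i
  unfold N at this
  exact this

lemma gg_summable (i : Fin d) (x : V d) : Summable fun n => (gg i n).coeff x := by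
  have h := gg_prod i
  rw [summable_prod_of_nonneg (fun q => abs_nonneg _)] at h
  exact (h.1 x).of_abs

/-- the potential -/
def uu (i : Fin d) (x : V d) : ℝ := ∑' n, (gg i n).coeff x

lemma uu_summable (i : Fin d) : Summable fun x => |uu i x| := by
  have h := gg_prod i
  rw [summable_prod_of_nonneg (fun q => abs_nonneg _)] at h
  refine Summable.of_nonneg_of_le (fun x => abs_nonneg _) (fun x => ?_) h.2
  have := norm_tsum_le_tsum_norm (f := fun n => (gg i n).coeff x) (by simpa using h.1 x)
  simpa [uu] using this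

lemma uu_lap (i : Fin d) (x : V d) :
    uu i x - (1 / (2 * d : ℝ)) * ∑ δ : Dr d, uu i (x + vec δ) = (ss i ^ 5).coeff x := by
  have h1 : uu i x = (gg i 0).coeff x + ∑' n, (gg i (n + 1)).coeff x :=
    (gg_summable i x).tsum_eq_zero_add
  have h2 : ∑' n, (gg i (n + 1)).coeff x
      = (1 / (2 * d : ℝ)) * ∑ δ : Dr d, uu i (x + vec δ) := by
    simp_rw [gg_succ]
    rw [tsum_mul_left]
    congr 1
    exact Summable.tsum_finsetSum (fun δ _ => gg_summable i _)
  rw [h1, h2, gg, pow_zero, one_mul]
  ring

lemma uu_zero (i : Fin d) : uu i 0 = 0 := by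
  have : ∀ n, (gg i n).coeff (0 : V d) = 0 := by
    intro n
    have := gg_odd i n 0
    rw [refl_zero] at this
    linarith
  simp [uu, this]

/-- sign of a direction -/
def sg (b : Bool) : ℤ := if b then 1 else -1

lemma vec_self (i : Fin d) (b : Bool) : vec (i, b) i = sg b := by
  cases b <;> simp [vec, sg]

lemma vec_le (δ : Dr d) (i : Fin d) (b : Bool) (h : δ ≠ (i, b)) : sg b * vec δ i ≤ 0 ∨
    ∃ c, δ = (i, c) ∧ c ≠ b := by
  obtain ⟨j, c⟩ := δ
  by_cases hj : j = i
  · subst hj
    right
    refine ⟨c, rfl, ?_⟩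
    rintro rfl
    exact h rfl
  · left
    have : vec (j, c) i = 0 := by simp [vec, Ne.symm hj]
    rw [this, mul_zero]

lemma vec_bound (δ : Dr d) (i : Fin d) (b : Bool) (h : δ ≠ (i, b)) : sg b * vec δ i ≤ 0 := by
  rcases vec_le δ i b h with h | ⟨c, rfl, hc⟩
  · exact h
  · rw [vec_self]
    cases b <;> cases c <;> simp_all [sg]

/-- extreme layer argument -/
lemma layer (h : V d → ℝ) (i : Fin d) (b : Bool) (hfin : {x | h x ≠ 0}.Finite)
    (hlap : ∀ x : V d, x i ≠ 0 → 2 * (d : ℝ) * h x = ∑ δ : Dr d, h (x + vec δ))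
    (x : V d) (hx : h x ≠ 0) : sg b * x i < 0 := by
  by_contra hcon
  push Not at hcon
  obtain ⟨y, hy, hmax⟩ := hfin.toFinset.exists_max_image (fun x => sg b * x i)
    ⟨x, by simpa using hx⟩
  simp only [Set.Finite.mem_toFinset, Set.mem_ofPred_eq] at hy hmax
  have hy0 : 0 ≤ sg b * y i := hcon.trans (hmax x hx)
  -- the vertex `z = y + vec (i,b)`
  set z := y + vec (i, !b) * (-1) with hz
  have hsg : sg b * sg b = 1 := by cases b <;> simp [sg]
  have hsgn : sg (!b) = - sg b := by cases b <;> simp [sg]
  have hzi : z i = y i + sg b := by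
    rw [hz, Pi.add_apply, Pi.mul_apply, vec_self, hsgn]
    simp
  have hz1 : sg b * z i = sg b * y i + 1 := by
    rw [hzi, mul_add, hsg]
  have hz0 : z i ≠ 0 := by
    intro h0
    rw [h0] at hz1
    omega
  have hzero : ∀ w : V d, sg b * y i < sg b * w i → h w = 0 := by
    intro w hw
    by_contra hne
    have := hmax w hne
    omega
  have h1 := hlap z hz0
  rw [hzero z (by omega), mul_zero] at h1
  have h2 : ∑ δ : Dr d, h (z + vec δ) = h (z + vec (i, !b)) := by
    apply sum_eq_single
    · intro δ _ hδ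
      apply hzero
      rw [Pi.add_apply, mul_add, hz1]
      have := vec_bound δ i (!b) hδ
      rw [hsgn] at this
      linarith
    · intro h
      exact absurd (mem_univ _) h
  have h3 : z + vec (i, !b) = y := by
    rw [hz]
    ext k
    simp
  rw [h2, h3] at h1
  exact hy h1.symm

/-- A summable function `h` on `ℤ^d`, `d ≥ 2`, vanishing at `a`, with integral Laplacian, not all
of whose increments are integers. -/
theorem exists_h (hd : 2 ≤ d) (a : V d) : ∃ h : V d → ℝ, (Summable fun x => |h x|) ∧
    (∀ x, ∃ n : ℤ, 2 * (d : ℝ) * h x - ∑ δ : Dr d, h (x + vec δ) = n) ∧ h a = 0 ∧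
    ∃ (x : V d) (δ : Dr d), ∀ n : ℤ, h x - h (x + vec δ) ≠ n := by
  have hd0 : (0 : ℝ) < d := by
    have : 0 < d := by omega
    exact_mod_cast this
  let i0 : Fin d := ⟨0, by omega⟩
  let i1 : Fin d := ⟨1, by omega⟩
  have hne : i0 ≠ i1 := by simp [i0, i1]
  set k : V d → ℝ := fun x => uu i0 x / (2 * d) with hk
  have klap : ∀ x, 2 * (d : ℝ) * k x - ∑ δ : Dr d, k (x + vec δ) = (ss i0 ^ 5).coeff x := by
    intro x
    rw [← uu_lap i0 x]
    simp only [hk]
    rw [← sum_div]
    field_simp
  have ksum : Summable fun x => |k x| := by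
    have := (uu_summable i0).div_const (2 * (d : ℝ))
    refine this.congr fun x => ?_
    simp only [hk]
    rw [abs_div, abs_of_pos (show (0 : ℝ) < 2 * d by positivity)]
  have k0 : k 0 = 0 := by simp [hk, uu_zero]
  refine ⟨fun x => k (x - a), ?_, ?_, ?_, ?_⟩
  · exact ksum.comp_injective (Equiv.subRight a).injective
  · intro x
    obtain ⟨n, hn⟩ := ss_pow_int i0 5 (x - a)
    refine ⟨n, ?_⟩
    rw [← hn, ← klap]
    congr 1
    refine sum_congr rfl fun δ _ => ?_
    change k (x + vec δ - a) = k (x - a + vec δ)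
    rw [add_sub_right_comm]
  · simp [k0]
  · by_contra hcon
    push Not at hcon
    have hinc : ∀ (x : V d) (δ : Dr d), ∃ n : ℤ, k x - k (x + vec δ) = n := by
      intro x δ
      obtain ⟨n, hn⟩ := hcon (x + a) δ
      refine ⟨n, ?_⟩
      rw [← hn, add_sub_cancel_right]
      congr 2
      abel
    -- all values are integers
    have hint : ∀ x, ∃ n : ℤ, k x = n := by
      intro x
      have hseq : ∀ m : ℕ, ∃ n : ℤ, k x - k (x + m • ev i0) = n := by
        intro m
        induction m with
        | zero => exact ⟨0, by simp⟩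
        | succ m ih =>
          obtain ⟨n, hn⟩ := ih
          obtain ⟨n', hn'⟩ := hinc (x + m • ev i0) (i0, true)
          refine ⟨n + n', ?_⟩
          rw [vec_true, add_assoc] at hn'
          rw [succ_nsmul]
          push_cast
          rw [← hn, ← hn']
          ring
      have hinj : Function.Injective (fun m : ℕ => x + m • ev i0) := by
        intro m m' hmm
        have := congrFun hmm i0
        simpa [ev] using this
      have hlim : Filter.Tendsto (fun m : ℕ => k x - k (x + m • ev i0)) Filter.atTop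
          (nhds (k x - 0)) := by
        apply Filter.Tendsto.sub tendsto_const_nhds
        exact ((ksum.comp_injective hinj).of_abs).tendsto_atTop_zero
      rw [sub_zero] at hlim
      have hcl : IsClosed (Set.range ((↑) : ℤ → ℝ)) := Int.isClosedEmbedding_coe_real.isClosed_range
      have := hcl.mem_of_tendsto hlim (Filter.Eventually.of_forall fun m => by
        obtain ⟨n, hn⟩ := hseq m
        exact ⟨n, hn.symm⟩)
      obtain ⟨n, hn⟩ := this
      exact ⟨n, hn.symm⟩
    have hfin : {x | k x ≠ 0}.Finite := by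
      have h1 := ksum.tendsto_cofinite_zero
      have h2 : ∀ᶠ x in Filter.cofinite, |k x| < 1 := h1.eventually (gt_mem_nhds one_pos)
      refine (Filter.eventually_cofinite.mp h2).subset ?_
      intro x hx h3
      obtain ⟨n, hn⟩ := hint x
      apply hx
      rw [hn] at h3 ⊢
      have h4 : |n| < 1 := by exact_mod_cast h3
      rw [Int.abs_lt_one_iff.mp h4]
      simp
    have hlap : ∀ x : V d, x i1 ≠ 0 → 2 * (d : ℝ) * k x = ∑ δ : Dr d, k (x + vec δ) := by
      intro x hx
      have := klap x
      rw [ss_pow_supp i0 i1 hne 5 x hx] at this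
      linarith
    have hzero : ∀ x, k x = 0 := by
      intro x
      by_contra hx
      have h1 := layer k i1 true hfin hlap x hx
      have h2 := layer k i1 false hfin hlap x hx
      simp only [sg] at h1 h2
      simp at h1 h2
      omega
    apply ss_pow_ne i0 5
    ext x
    rw [← klap]
    simp [hzero]

end

end Pool.Agent.Q171.RW
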