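import Pool.Agent.Q171.RW.Count
import Pool.Agent.Q171.RW.Conserve
import Pool.Agent.Q171.RW.Homoclinic

/-!
`OWUSF` is not the only infinite-step stationary measure.
-/

namespace Pool.Agent.Q171.RW

open Filter Topology MeasureTheory ProbabilityTheory

variable {d : ℕ}

lemma SS_close {w : V d → Dr d → ℝ} {b : V d → ℝ} (hb : Summable b)
    (hwb : ∀ x δ, |w x δ| ≤ b x) (T : Finset (V d)) (ρ ρ' : Cfg d)
    (h : ∀ y ∈ T, ρ y = ρ' y) :
    |SS w ρ - SS w ρ'| ≤ 2 * (∑' x, b x - ∑ x ∈ T, b x) := by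
  classical
  have h1 := SS_summable hb hwb ρ
  have h2 := SS_summable hb hwb ρ'
  have h3 : SS w ρ - SS w ρ' = ∑' x, (w x (ρ x) - w x (ρ' x)) := (h1.tsum_sub h2).symm
  have h4 : HasSum (fun x => 2 * (b x - if x ∈ T then b x else 0))
      (2 * (∑' x, b x - ∑ x ∈ T, b x)) := by
    apply HasSum.mul_left
    apply hb.hasSum.sub
    have h0 : HasSum (fun x => if x ∈ T then b x else 0) (∑ x ∈ T, if x ∈ T then b x else 0) :=
      hasSum_sum_of_ne_finset_zero (by intro x hx; simp [hx])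
    have h0' : ∑ x ∈ T, (if x ∈ T then b x else 0) = ∑ x ∈ T, b x :=
      Finset.sum_congr rfl fun x hx => by simp [hx]
    rwa [h0'] at h0
  rw [h3, ← h4.tsum_eq]
  have h5 : ∀ x, ‖w x (ρ x) - w x (ρ' x)‖ ≤ 2 * (b x - if x ∈ T then b x else 0) := by
    intro x
    by_cases hx : x ∈ T
    · simp [hx, h x hx]
    · simp only [hx, if_false, sub_zero]
      have e1 := hwb x (ρ x)
      have e2 := hwb x (ρ' x)
      rw [Real.norm_eq_abs]
      calc |w x (ρ x) - w x (ρ' x)| ≤ |w x (ρ x)| + |w x (ρ' x)| := abs_sub _ _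
        _ ≤ 2 * b x := by linarith
  have h6 := tsum_of_norm_bounded h4 h5
  rw [Real.norm_eq_abs] at h6
  rw [h4.tsum_eq]
  exact h6

/-- `S mod 1` is not almost surely constant under `OWUSF`. -/
theorem not_const (hd : 2 ≤ d) {P : Measure (Cfg d)} (hP : IsOWUSF P)
    {w : V d → Dr d → ℝ} {b : V d → ℝ} (hb : Summable b)
    (hwb : ∀ x δ, |w x δ| ≤ b x)
    (hnon : ∃ (x : V d) (δ δ' : Dr d), ∀ n : ℤ, w x δ - w x δ' ≠ n) :
    ¬ ∃ c : ℝ, ∀ᵐ ρ ∂P, Int.fract (SS w ρ) = c := by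
  classical
  rintro ⟨c, hc⟩
  obtain ⟨x, δ, δ', hx⟩ := hnon
  set Δ := w x δ - w x δ' with hΔ
  set ε := |Δ - round Δ| with hε
  have hεpos : 0 < ε := abs_pos.mpr (sub_ne_zero.mpr (hx _))
  obtain ⟨T, hxT, hT⟩ : ∃ T : Finset (V d), x ∈ T ∧ ∑' x, b x - ∑ x ∈ T, b x < ε / 2 := by
    have h1 : ∀ᶠ T : Finset (V d) in atTop, ∑' x, b x - ε / 2 < ∑ x ∈ T, b x :=
      hb.hasSum.eventually (lt_mem_nhds (by linarith))
    obtain ⟨T, h2, h3⟩ := (h1.and (eventually_ge_atTop {x})).exists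
    exact ⟨T, Finset.singleton_subset_iff.mp h3, by linarith⟩
  obtain ⟨q, hq⟩ := pattern_pos hd hP x T
  have hpick : ∀ δ, ∃ ρ : Cfg d, (ρ x = δ ∧ ∀ y ∈ T, y ≠ x → ρ y = q y) ∧
      Int.fract (SS w ρ) = c := by
    intro δ
    by_contra hcon
    push Not at hcon
    have h0 : P {ρ | ρ x = δ ∧ ∀ y ∈ T, y ≠ x → ρ y = q y} = 0 := by
      refine measure_mono_null ?_ (ae_iff.mp hc)
      intro ρ hρ
      exact hcon ρ hρ
    exact (hq δ).ne' h0
  obtain ⟨ρ1, ⟨h1x, h1⟩, h1c⟩ := hpick δ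
  obtain ⟨ρ2, ⟨h2x, h2⟩, h2c⟩ := hpick δ'
  have h3 := SS_update hb hwb ρ1 x δ'
  rw [h1x] at h3
  have h4 := SS_close hb hwb T (Function.update ρ1 x δ') ρ2 (by
    intro y hy
    by_cases hyx : y = x
    · subst hyx
      simp [h2x]
    · rw [Function.update_of_ne hyx, h1 y hy hyx, h2 y hy hyx])
  rw [h3] at h4
  have h5 : SS w ρ1 - SS w ρ2 = ((⌊SS w ρ1⌋ - ⌊SS w ρ2⌋ : ℤ) : ℝ) := by
    have e1 := Int.floor_add_fract (SS w ρ1)
    have e2 := Int.floor_add_fract (SS w ρ2)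
    rw [h1c] at e1
    rw [h2c] at e2
    push_cast
    linarith
  have h6 := round_le Δ (⌊SS w ρ1⌋ - ⌊SS w ρ2⌋)
  have h7 : |SS w ρ1 + (w x δ' - w x δ) - SS w ρ2|
      = |Δ - ((⌊SS w ρ1⌋ - ⌊SS w ρ2⌋ : ℤ) : ℝ)| := by
    rw [← h5, abs_sub_comm]
    congr 1
    rw [hΔ]
    ring
  rw [h7] at h4
  have : ε < ε := by
    calc ε ≤ |Δ - ((⌊SS w ρ1⌋ - ⌊SS w ρ2⌋ : ℤ) : ℝ)| := h6
      _ ≤ 2 * (∑' x, b x - ∑ x ∈ T, b x) := h4
      _ < ε := by linarith
  exact lt_irrefl _ this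

lemma IsStationary.aemeasurable {τ : V d → Equiv.Perm (Dr d)} {a : V d} {P : Measure (Cfg d)}
    (h : IsStationary τ a P) : AEMeasurable (final τ a) P := by
  by_contra hcon
  have h1 := h.law
  rw [Measure.map_of_not_aemeasurable hcon] at h1
  have := h.prob
  exact IsProbabilityMeasure.ne_zero P h1.symm

/-- conditioning on an invariant event keeps stationarity -/
lemma IsStationary.cond {τ : V d → Equiv.Perm (Dr d)} {a : V d} {P : Measure (Cfg d)}
    (h : IsStationary τ a P) {A : Set (Cfg d)} (hA : MeasurableSet A)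
    (hinv : ∀ᵐ ρ ∂P, final τ a ρ ∈ A ↔ ρ ∈ A) (hPA : P A ≠ 0) :
    IsStationary τ a P[|A] := by
  have := h.prob
  have hac : P[|A] ≪ P := cond_absolutelyContinuous
  refine ⟨cond_isProbabilityMeasure hPA, hac.ae_le h.transient, ?_⟩
  ext C hC
  rw [Measure.map_apply_of_aemeasurable (h.aemeasurable.mono_ac hac) hC, cond_apply hA,
    cond_apply hA]
  congr 1
  have e1 : P (A ∩ final τ a ⁻¹' C) = P (final τ a ⁻¹' (A ∩ C)) := by
    apply measure_congr
    filter_upwards [hinv] with ρ hρ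
    apply propext
    constructor
    · rintro ⟨h1, h2⟩
      exact ⟨hρ.mpr h1, h2⟩
    · rintro ⟨h1, h2⟩
      exact ⟨hρ.mp h1, h2⟩
  rw [e1, ← Measure.map_apply_of_aemeasurable h.aemeasurable (hA.inter hC), h.law]

/-- If `OWUSF` is infinite-step stationary then it splits into two mutually singular
infinite-step stationary measures. -/
theorem main (hd : 2 ≤ d) (τ : V d → Equiv.Perm (Dr d)) (hτ : SingleOrbit τ) (a : V d)
    {P : Measure (Cfg d)} (hP : IsOWUSF P) (hst : IsStationary τ a P) :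
    ∃ A : Set (Cfg d), MeasurableSet A ∧ P A ≠ 0 ∧ P Aᶜ ≠ 0 ∧
      IsStationary τ a P[|A] ∧ IsStationary τ a P[|Aᶜ] := by
  obtain ⟨h, hs, hlap, ha, hnon⟩ := exists_h hd a
  obtain ⟨w, b, hb, hwb, hw, hwnon⟩ := exists_weights τ hτ h hs hlap hnon
  have hnc := not_const hd hP hb hwb hwnon
  set F : Cfg d → ℝ := fun ρ => Int.fract (SS w ρ) with hF
  have hFm : Measurable F := (SS_measurable w).fract
  have hFinv : ∀ᵐ ρ ∂P, F (final τ a ρ) = F ρ := by
    filter_upwards [hst.transient] with ρ hρ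
    obtain ⟨n, hn⟩ := SS_invariant hs hb hwb hw ha hρ
    have : SS w (final τ a ρ) = SS w ρ + n := by linarith
    simp only [hF, this, Int.fract_add_intCast]
  obtain ⟨U, hU, hU1, hU2⟩ : ∃ U : Set ℝ, MeasurableSet U ∧ ¬ (∀ᵐ ρ ∂P, F ρ ∈ U) ∧
      ¬ (∀ᵐ ρ ∂P, F ρ ∉ U) := by
    by_contra hcon
    apply hnc
    have := Filter.exists_eventuallyEq_const_of_forall_separating (l := ae P) (f := F)
      (fun s => MeasurableSet s) (fun U hU => by
        by_contra hne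
        rw [not_or] at hne
        exact hcon ⟨U, hU, hne.1, hne.2⟩)
    obtain ⟨c, hc⟩ := this
    exact ⟨c, hc⟩
  set A : Set (Cfg d) := F ⁻¹' U with hA
  have hAm : MeasurableSet A := hFm hU
  have hinv : ∀ᵐ ρ ∂P, final τ a ρ ∈ A ↔ ρ ∈ A := by
    filter_upwards [hFinv] with ρ hρ
    simp only [hA, Set.mem_preimage, hρ]
  have hinv' : ∀ᵐ ρ ∂P, final τ a ρ ∈ Aᶜ ↔ ρ ∈ Aᶜ := by
    filter_upwards [hinv] with ρ hρ
    exact not_congr hρ
  have h1 : P A ≠ 0 := by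
    intro h0
    apply hU2
    exact measure_eq_zero_iff_ae_notMem.mp h0
  have h2 : P Aᶜ ≠ 0 := by
    intro h0
    apply hU1
    have := measure_eq_zero_iff_ae_notMem.mp h0
    filter_upwards [this] with ρ hρ
    by_contra h3
    exact hρ h3
  exact ⟨A, hAm, h1, h2, hst.cond hAm hinv h1, hst.cond hAm.compl hinv' h2⟩

end Pool.Agent.Q171.RW
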