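import Pool.Agent.Q171.RW.Forest

/-!
The punctured cube around a vertex is connected.
-/

namespace Pool.Agent.Q171.RW

open Filter Topology MeasureTheory

variable {d : ℕ}

/-- punctured cube around `x` -/
noncomputable def cube (x : V d) : Finset (V d) := (Finset.Icc (x - 1) (x + 1)).erase x

lemma mem_cube {x y : V d} : y ∈ cube x ↔ y ≠ x ∧ ∀ i, x i - 1 ≤ y i ∧ y i ≤ x i + 1 := by
  rw [cube, Finset.mem_erase, Finset.mem_Icc, Pi.le_def, Pi.le_def, ← forall_and]
  rfl

/-- the nearest neighbour graph on a finite set -/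
def gr (B : Finset (V d)) : SimpleGraph (V d) where
  Adj u v := u ∈ B ∧ v ∈ B ∧ ∃ δ, v = u + vec δ
  symm := ⟨by
    rintro u v ⟨hu, hv, δ, rfl⟩
    exact ⟨hv, hu, opp δ, by rw [vec_opp]; abel⟩⟩
  loopless := ⟨by
    rintro u ⟨_, _, δ, h⟩
    exact vec_ne δ (left_eq_add.mp h)⟩

lemma conn_of_reachable {B : Finset (V d)} (c : V d)
    (h : ∀ b ∈ B, (gr B).Reachable b c) : Conn B := by
  intro b' hb'
  refine ⟨fun b => (gr B).dist b b', fun b hb hbb => ?_⟩
  have hr : (gr B).Reachable b b' := (h b hb).trans (h b' hb').symm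
  obtain ⟨p, hp⟩ := hr.exists_walk_length_eq_dist
  cases p with
  | nil => exact absurd rfl hbb
  | @cons _ u _ hadj q =>
    have h1 := (gr B).dist_le q
    have h2 : q.length + 1 = (gr B).dist b b' := hp
    obtain ⟨_, huB, δ, rfl⟩ := hadj
    refine ⟨δ, huB, ?_⟩
    change (gr B).dist (b + vec δ) b' < (gr B).dist b b'
    omega

lemma cube_raise (hd : 2 ≤ d) {x b : V d} (hb : b ∈ cube x) (hbc : b ≠ x + 1) :
    ∃ i : Fin d, b + vec (i, true) ∈ cube x := by
  classical
  rw [mem_cube] at hb
  obtain ⟨hbx, hb⟩ := hb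
  obtain ⟨i, hi⟩ : ∃ i, b i ≤ x i := by
    by_contra hcon
    push Not at hcon
    apply hbc
    ext i
    have h1 := hb i
    have h2 := hcon i
    simp only [Pi.add_apply, Pi.one_apply]
    omega
  have hval : ∀ i k : Fin d, (b + vec (i, true)) k = b k + if k = i then 1 else 0 := by
    intro i k
    simp [vec, Pi.single_apply]
  have hIcc : ∀ i : Fin d, b i ≤ x i →
      ∀ k, x k - 1 ≤ (b + vec (i, true)) k ∧ (b + vec (i, true)) k ≤ x k + 1 := by
    intro i hi k
    rw [hval]
    have := hb k
    split_ifs with h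
    · subst h; omega
    · omega
  by_cases hix : b + vec (i, true) = x
  · obtain ⟨j, hj⟩ : ∃ j : Fin d, j ≠ i := by
      by_cases h0 : i = ⟨0, by omega⟩
      · exact ⟨⟨1, by omega⟩, by rw [h0]; simp⟩
      · exact ⟨⟨0, by omega⟩, fun h => h0 h.symm⟩
    have hbj : b j = x j := by
      rw [← hix, hval, if_neg hj, add_zero]
    refine ⟨j, mem_cube.mpr ⟨?_, hIcc j hbj.le⟩⟩
    intro h
    have h1 := congrFun h j
    rw [hval, if_pos rfl] at h1
    omega
  · exact ⟨i, mem_cube.mpr ⟨hix, hIcc i hi⟩⟩

lemma cube_reach (hd : 2 ≤ d) (x : V d) : ∀ b ∈ cube x, (gr (cube x)).Reachable b (x + 1) := by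
  classical
  have key : ∀ m : ℕ, ∀ b ∈ cube x, (∑ i, (x i + 1 - b i)).toNat = m →
      (gr (cube x)).Reachable b (x + 1) := by
    intro m
    induction m using Nat.strong_induction_on with
    | _ m ih =>
      intro b hb hm
      by_cases hbc : b = x + 1
      · rw [hbc]
      · obtain ⟨i, hi⟩ := cube_raise hd hb hbc
        have hsum : ∑ k, (x k + 1 - (b + vec (i, true)) k) = ∑ k, (x k + 1 - b k) - 1 := by
          have : ∀ k, x k + 1 - (b + vec (i, true)) k
              = (x k + 1 - b k) - if k = i then 1 else 0 := by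
            intro k
            simp [vec, Pi.single_apply]
            ring
          simp_rw [this]
          rw [Finset.sum_sub_distrib]
          simp
        have hpos : 0 ≤ ∑ k, (x k + 1 - (b + vec (i, true)) k) := by
          apply Finset.sum_nonneg
          intro k _
          have := ((mem_cube.mp hi).2 k).2
          omega
        have hstep : (gr (cube x)).Reachable b (b + vec (i, true)) :=
          SimpleGraph.Adj.reachable ⟨hb, hi, _, rfl⟩
        refine hstep.trans (ih _ ?_ _ hi rfl)
        rw [← hm]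
        rw [hsum] at hpos ⊢
        omega
  intro b hb
  exact key _ b hb rfl

lemma cube_conn (hd : 2 ≤ d) (x : V d) : Conn (cube x) :=
  conn_of_reachable (x + 1) (cube_reach hd x)

lemma cube_nbr (x : V d) (δ : Dr d) : x + vec δ ∈ cube x := by
  classical
  rw [mem_cube]
  refine ⟨fun h => vec_ne δ (add_eq_left.mp h), fun i => ?_⟩
  obtain ⟨j, b⟩ := δ
  by_cases h : i = j
  · subst h
    cases b
    · simp [vec]
    · simp only [vec, Pi.add_apply, Pi.single_eq_same, if_true]
      omega
  · simp [vec, h]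

lemma cube_not (x : V d) : x ∉ cube x := by simp [cube]

end Pool.Agent.Q171.RW
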